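import Pool.Agent.W_a51130_h62.PcBasic

/-!
Horospherical displacements (positive part, file A).

For a base point `p = g ∞` of a piece (`g` not parabolic) and a point `x` of the upper half space,
`P.vq p x` is the horizontal displacement, measured on the horosphere at `p`, between infinity and `x`, and
`P.tq p x` the height of `x` seen from `p`.
-/

namespace QIG

variable {m : ℕ} (P : Piece m)

open Classical in
/-- A chosen group element with base point `p`. -/
noncomputable def Piece.rp (p : E m) : P.Γ :=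
  if h : ∃ g : P.Γ, ¬ P.Par g ∧ bp g.1 = p then h.choose else 1

/-- Displacement seen from `p`. -/
noncomputable def Piece.vq (p : E m) (x : HPt m) : E m := ((P.rp p).1⁻¹ x).u - bb (P.rp p).1

/-- Height seen from `p`. -/
noncomputable def Piece.tq (p : E m) (x : HPt m) : ℝ := ((P.rp p).1⁻¹ x).t

/-- Base points whose horoball is deeply crossed by the vertical ray above `x`. -/
def Piece.deep (R : ℝ) (x : HPt m) : Set (E m) := {p | p ∈ P.Q ∧ R < ‖P.vq p x‖}

theorem Piece.rp_spec {p : E m} (hp : p ∈ P.Q) : ¬ P.Par (P.rp p) ∧ bp (P.rp p).1 = p := by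
  have h : ∃ g : P.Γ, ¬ P.Par g ∧ bp g.1 = p := hp
  unfold Piece.rp
  rw [dif_pos h]
  exact h.choose_spec

theorem Piece.tq_pos (p : E m) (x : HPt m) : 0 < P.tq p x := ((P.rp p).1⁻¹ x).pos

theorem Piece.posA_inv {p : E m} (hp : p ∈ P.Q) :
    IsInv (P.rp p).1⁻¹ (bb (P.rp p).1) p (P.sz p) (bA (P.rp p).1).symm := by
  obtain ⟨h1, h2⟩ := P.rp_spec hp
  have h3 := (P.isInv h1).inv
  have h4 := P.sz_eq h1
  rw [h2] at h3 h4
  rw [h4]
  exact h3

/-- From `IsInv.inv` of `P.isInv (rp_spec hp).1`, `P.sz_eq`. -/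
theorem Piece.vq_norm {p : E m} (hp : p ∈ P.Q) (x : HPt m) :
    ‖P.vq p x‖ * (‖x.u - p‖ ^ 2 + x.t ^ 2) = P.sz p * ‖x.u - p‖ := by
  have h := P.posA_inv hp
  have hN : 0 < ‖x.u - p‖ ^ 2 + x.t ^ 2 := nfaux_pos p
  have hs := h.pos
  unfold Piece.vq
  rw [h.u_eq x, add_sub_cancel_left, norm_smul, LinearIsometryEquiv.norm_map, Real.norm_eq_abs,
    abs_of_pos (by positivity)]
  field_simp

theorem Piece.tq_eq {p : E m} (hp : p ∈ P.Q) (x : HPt m) :
    P.tq p x * (‖x.u - p‖ ^ 2 + x.t ^ 2) = P.sz p * x.t := by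
  have h := P.posA_inv hp
  have hN : 0 < ‖x.u - p‖ ^ 2 + x.t ^ 2 := nfaux_pos p
  unfold Piece.tq
  rw [h.t_eq x]
  field_simp

/-- `norm_le_q` for the points `(rp p)⁻¹ x`, `(rp p)⁻¹ y`, and `q_isom`. -/
theorem Piece.vq_sub_le (p : E m) (x y : HPt m) : ‖P.vq p x - P.vq p y‖ ≤ q x y * P.tq p x := by
  have h1 : P.vq p x - P.vq p y = ((P.rp p).1⁻¹ x).u - ((P.rp p).1⁻¹ y).u := by
    unfold Piece.vq
    abel
  have h2 := norm_le_q ((P.rp p).1⁻¹ x) ((P.rp p).1⁻¹ y)
  rw [q_isom (P.isom' (P.rp p)).inv] at h2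
  rw [h1]
  exact h2

/-- Independence of the representative: `coset`, `IsInv.mul_transl`, `IsInv.nf_eq`: if `g = rp p * tr v` then
`g⁻¹ x = (rp p)⁻¹ x - v` and `bb g = bb (rp p) - v`. -/
theorem Piece.vq_of {g : P.Γ} (hg : ¬ P.Par g) (x : HPt m) :
    P.vq (bp g.1) x = (g.1⁻¹ x).u - bb g.1 := by
  obtain ⟨h1, h2⟩ := P.rp_spec (p := bp g.1) ⟨g, hg, rfl⟩
  unfold Piece.vq
  generalize P.rp (bp g.1) = g0 at h1 h2 ⊢
  have h3 : P.Par (g0⁻¹ * g) := by
    by_contra h4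
    exact (P.bp_ne h1 hg h4).1 h2.symm
  obtain ⟨v, hv⟩ := h3
  have h5 : g.1 = g0.1 * transl v := by
    rw [← hv]
    change g.1 = g0.1 * (g0.1⁻¹ * g.1)
    group
  have h6 := ((P.isInv h1).mul_transl v).nf_eq.2.1
  rw [← h5] at h6
  have h7 : g0.1⁻¹ x = transl v (g.1⁻¹ x) := by
    rw [h5, mul_inv_rev, Equiv.Perm.mul_apply]
    exact ((transl v).apply_symm_apply _).symm
  rw [h7, transl_u, h6]
  abel

theorem Piece.sz_bounds {p : E m} (hp : p ∈ P.Q) : 0 < P.sz p ∧ P.sz p ≤ 1 / 4 := by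
  obtain ⟨h1, h2⟩ := P.rp_spec hp
  have h3 := P.sz_eq h1
  rw [h2] at h3
  rw [h3]
  exact ⟨(P.isInv h1).pos, P.bs_le h1⟩

/-- `bp_ne` and `bs_le` for `(rp p)⁻¹ * rp p'`. -/
theorem Piece.sep {p p' : E m} (hp : p ∈ P.Q) (hp' : p' ∈ P.Q) (h : p ≠ p') :
    4 * (P.sz p * P.sz p') ≤ ‖p - p'‖ ^ 2 := by
  obtain ⟨h1, h2⟩ := P.rp_spec hp
  obtain ⟨h1', h2'⟩ := P.rp_spec hp'
  have h3 := P.sz_eq h1
  have h3' := P.sz_eq h1'
  rw [h2] at h3
  rw [h2'] at h3'
  have h4 : ¬ P.Par ((P.rp p)⁻¹ * P.rp p') := by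
    intro h5
    have h6 := (P.coset h1 h5).2.1
    rw [h2, h2'] at h6
    exact h h6.symm
  have h7 := (P.bp_ne h1 h1' h4).2.1
  have h8 := P.bs_le h4
  rw [h2, h2', ← h3, ← h3'] at h7
  rw [h7] at h8
  have h9 : 0 < ‖p' - p‖ := norm_pos_iff.mpr (sub_ne_zero.mpr h.symm)
  rw [div_le_iff₀ (by positivity)] at h8
  rw [norm_sub_rev p p']
  linarith

/-- For `p` in `deep 3 x`: with `r = ‖x.u - p‖`, `s = sz p`, `t = x.t`: `3 (r² + t²) < s r`, so `r < s/3`,
`t² < r s/3 < s²/9`. -/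
theorem Piece.deep_bounds {p : E m} {x : HPt m} (h : p ∈ P.deep 3 x) :
    ‖x.u - p‖ ≤ P.sz p / 3 ∧ x.t ≤ P.sz p / 3 := by
  obtain ⟨hp, hv⟩ := h
  have h1 := P.vq_norm hp x
  have hN : 0 < ‖x.u - p‖ ^ 2 + x.t ^ 2 := nfaux_pos p
  have hs := (P.sz_bounds hp).1
  have hx := x.pos
  have hr0 : 0 ≤ ‖x.u - p‖ := norm_nonneg _
  have h2 : 3 * (‖x.u - p‖ ^ 2 + x.t ^ 2) < P.sz p * ‖x.u - p‖ := by
    rw [← h1]
    exact mul_lt_mul_of_pos_right hv hN
  generalize ‖x.u - p‖ = r at *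
  generalize P.sz p = s at *
  have hr : 0 < r := by
    rcases hr0.eq_or_lt with h3 | h3
    · exfalso
      rw [← h3] at h2
      nlinarith
    · exact h3
  have h4 : r ≤ s / 3 := by
    have : 3 * r * r < s * r := by nlinarith
    have := lt_of_mul_lt_mul_right this hr.le
    linarith
  refine ⟨h4, ?_⟩
  have h5 : x.t ^ 2 ≤ (s / 3) ^ 2 := by nlinarith
  exact le_of_sq_le_sq h5 (by positivity)

/-- For `p ≠ p'` in `deep 3 x` with `sz p' ≤ sz p`: `‖p - p'‖ ≥ 2 √(s s')`, `‖x.u - p'‖ ≤ s'/3 ≤ √(s s')/3`, so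
`‖x.u - p‖ ≥ (5/3) √(s s')`, and `‖x.u - p‖ ≤ s/3` gives `25 s' ≤ s`; moreover
`tq p x ≤ s t/‖x.u - p‖² ≤ (9/25) t/s'`. -/
theorem Piece.deep_pair {p p' : E m} {x : HPt m} (h : p ∈ P.deep 3 x) (h' : p' ∈ P.deep 3 x)
    (hne : p ≠ p') (hs : P.sz p' ≤ P.sz p) :
    25 * P.sz p' ≤ P.sz p ∧ P.tq p x ≤ 9 / 25 * (x.t / P.sz p') := by
  have hb := (P.deep_bounds h).1
  have hb' := (P.deep_bounds h').1
  have hp := (P.sz_bounds h.1).1
  have hp' := (P.sz_bounds h'.1).1
  have hsep := P.sep h.1 h'.1 hne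
  have htq := P.tq_eq h.1 x
  have hx := x.pos
  have htri : ‖p - p'‖ ≤ ‖x.u - p‖ + ‖x.u - p'‖ := by
    have e : p - p' = (x.u - p') - (x.u - p) := by abel
    rw [e]
    linarith [norm_sub_le (x.u - p') (x.u - p)]
  have hr0 : 0 ≤ ‖x.u - p‖ := norm_nonneg _
  have hr0' : 0 ≤ ‖x.u - p'‖ := norm_nonneg _
  have hd0 : 0 ≤ ‖p - p'‖ := norm_nonneg _
  generalize ‖x.u - p‖ = r at *
  generalize ‖x.u - p'‖ = r' at *
  generalize ‖p - p'‖ = d at *
  generalize P.sz p = s at *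
  generalize P.sz p' = s' at *
  set w := Real.sqrt (s * s') with hw
  have hw0 : 0 < w := Real.sqrt_pos.mpr (by positivity)
  have hw2 : w ^ 2 = s * s' := Real.sq_sqrt (by positivity)
  have hd : 2 * w ≤ d := by
    apply abs_le_of_sq_le_sq' _ hd0 |>.2
    nlinarith
  have hsw : s' ≤ w := by
    apply abs_le_of_sq_le_sq' _ hw0.le |>.2
    nlinarith
  have hr : 5 / 3 * w ≤ r := by linarith
  have h5 : 5 * w ≤ s := by linarith
  have h25 : 25 * s' ≤ s := by
    have h6 : (5 * w) ^ 2 ≤ s ^ 2 := by gcongr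
    have h7 : 25 * s' * s ≤ s * s := by nlinarith
    exact le_of_mul_le_mul_right h7 hp
  refine ⟨h25, ?_⟩
  have ht0 := P.tq_pos p x
  have h8 : P.tq p x * (25 / 9 * (s * s')) ≤ s * x.t := by
    rw [← htq]
    apply mul_le_mul_of_nonneg_left _ ht0.le
    have h9 : (5 / 3 * w) ^ 2 ≤ r ^ 2 := by gcongr
    nlinarith [sq_nonneg x.t]
  have h10 : P.tq p x * (25 * s') ≤ 9 * x.t := by
    have h11 : P.tq p x * (25 * s') * s ≤ 9 * x.t * s := by nlinarith
    exact le_of_mul_le_mul_right h11 hp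
  have h12 : 9 / 25 * (x.t / s') = 9 * x.t / (25 * s') := by
    field_simp
  rw [h12, le_div_iff₀ (by positivity)]
  exact h10

theorem Piece.posA_card {x : HPt m} (F : Finset (E m)) (hF : ∀ p ∈ F, p ∈ P.deep 3 x) :
    F = ∅ ∨ ∃ a ∈ F, 3 * x.t * 25 ^ F.card ≤ 25 * P.sz a := by
  classical
  induction F using Finset.induction_on_max_value P.sz with
  | empty => exact Or.inl rfl
  | insert a s ha hmax ih =>
    right
    refine ⟨a, Finset.mem_insert_self _ _, ?_⟩
    rw [Finset.card_insert_of_notMem ha, pow_succ]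
    have hda := hF a (Finset.mem_insert_self _ _)
    rcases ih (fun p hp => hF p (Finset.mem_insert_of_mem hp)) with h | ⟨b, hb, hle⟩
    · rw [h, Finset.card_empty, pow_zero]
      have := (P.deep_bounds hda).2
      linarith
    · have hdb := hF b (Finset.mem_insert_of_mem hb)
      have hne : a ≠ b := by
        rintro rfl
        exact ha hb
      have := (P.deep_pair hda hdb hne (hmax b hb)).1
      linarith

/-- Induction on `F` (`Finset.induction_on_max_value`): if `F` is not empty and `a` is an element of maximal size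
then `3 t 25 ^ card F ≤ 25 sz a` (`deep_bounds`, `deep_pair`), and `sz a ≤ 1/4`, so the cardinality of `F` is
bounded. -/
theorem Piece.deep_finite (x : HPt m) : (P.deep 3 x).Finite := by
  by_contra hinf
  have hx := x.pos
  obtain ⟨n, hn⟩ := pow_unbounded_of_one_lt (7 / (3 * x.t)) (by norm_num : (1 : ℝ) < 25)
  obtain ⟨F, hF, hcard⟩ := Set.Infinite.exists_subset_card_eq hinf (n + 1)
  rcases P.posA_card F (fun p hp => hF hp) with h | ⟨a, ha, hle⟩
  · rw [h] at hcard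
    simp at hcard
  · have h1 := (P.sz_bounds (hF ha).1).2
    rw [hcard, pow_succ] at hle
    rw [div_lt_iff₀ (by positivity)] at hn
    nlinarith

/-- Induction on `F` (`Finset.induction_on_max_value`): if `F` is not empty and `a` is an element of maximal size
then `∑ tq ≤ 2 - t / sz a`.  One element: `tq p x ≤ 1` (hypothesis `hx` for the inverse of `rp p`) and
`t / s ≤ 1/3`.  Adding a new `a` with `25 sz b ≤ sz a`: the sum is
`≤ 2 - t/sz b + (9/25) t/sz b ≤ 2 - t/sz a`. -/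
theorem Piece.posA_sum {x : HPt m} (hx : ∀ g : P.Γ, (g.1 x).t ≤ 1) (F : Finset (E m))
    (hF : ∀ p ∈ F, p ∈ P.deep 3 x) :
    F = ∅ ∨ ∃ a ∈ F, ∑ p ∈ F, P.tq p x ≤ 2 - x.t / P.sz a := by
  classical
  have hxt := x.pos
  induction F using Finset.induction_on_max_value P.sz with
  | empty => exact Or.inl rfl
  | insert a s ha hmax ih =>
    right
    refine ⟨a, Finset.mem_insert_self _ _, ?_⟩
    rw [Finset.sum_insert ha]
    have hda := hF a (Finset.mem_insert_self _ _)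
    have hsa := (P.sz_bounds hda.1).1
    rcases ih (fun p hp => hF p (Finset.mem_insert_of_mem hp)) with h | ⟨b, hb, hle⟩
    · rw [h, Finset.sum_empty]
      have h1 := (P.deep_bounds hda).2
      have h2 : P.tq a x ≤ 1 := hx (P.rp a)⁻¹
      have h3 : x.t / P.sz a ≤ 1 / 3 := by
        rw [div_le_iff₀ hsa]
        linarith
      linarith
    · have hdb := hF b (Finset.mem_insert_of_mem hb)
      have hsb := (P.sz_bounds hdb.1).1
      have hne : a ≠ b := by
        rintro rfl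
        exact ha hb
      obtain ⟨h1, h2⟩ := P.deep_pair hda hdb hne (hmax b hb)
      have h3 : x.t / P.sz a ≤ 1 / 25 * (x.t / P.sz b) := by
        have e : 1 / 25 * (x.t / P.sz b) = x.t / (25 * P.sz b) := by field_simp
        rw [e]
        exact div_le_div_of_nonneg_left hxt.le (by positivity) h1
      have h4 : 0 ≤ x.t / P.sz b := by positivity
      linarith

theorem Piece.sum_tq_le {x : HPt m} (hx : ∀ g : P.Γ, (g.1 x).t ≤ 1) (F : Finset (E m))
    (hF : ∀ p ∈ F, p ∈ P.deep 3 x) : ∑ p ∈ F, P.tq p x ≤ 2 := by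
  rcases P.posA_sum hx F hF with h | ⟨a, ha, hle⟩
  · rw [h, Finset.sum_empty]
    norm_num
  · have hxt := x.pos
    have hsa := (P.sz_bounds (hF a ha).1).1
    have : 0 ≤ x.t / P.sz a := by positivity
    linarith

end QIG
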