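import Pool.Agent.W_a51130_h62.Pos.A

/-!
A coarsely Lipschitz function on the group of a piece which is coarsely linear, with prescribed linear part, on
every coset of the cusp group (positive part, file B).

PROOF.  Let `M ≥ 1` with `|ℓ v| ≤ M ‖v‖`, `R = 4 M`, `χ s = s - max (-R) (min s R)`: `χ` is `2`-Lipschitz,
`|χ s - s| ≤ R`, `χ s = 0` for `|s| ≤ R`.  For a point `x` put
`r x = ℓ x.u + ∑ᶠ p ∈ P.Q, χ (ℓ (P.vq p x))`.  The terms `≠ 0` have `R < |ℓ (vq p x)| ≤ M ‖vq p x‖`, so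
`p ∈ P.deep 4 x ⊆ P.deep 3 x`, a finite set.  `ρ g = r (P.orb g)`.

1. `|r x - r y| ≤ M q x y x.t + 2 M q x y ∑_{p ∈ deep 3 x} tq p x + 2 M q x y ∑_{p ∈ deep 3 y} tq p y`
(`vq_sub_le`, applied to `(x, y)` for `p ∈ deep 3 x` and to `(y, x)` for `p ∈ deep 3 y`; the other terms vanish).
For `x = orb g`, `y = orb (g h)`: `q x y = q (base) (orb h)` by `q_isom`, the points satisfy the hypothesis of
`sum_tq_le` (`orb_t_le_one`, `g' (orb g) = orb (g' g)`), so the difference is at most `5 M q · 2`.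

2. `g = tr w` parabolic: `x = (w, 1)`, `y = (w + v, 1)`, `‖vq p x‖ ≤ s r/(r² + 1) ≤ s/2 < 3` for all `p ∈ Q`, the
sums vanish and `r y - r x = ℓ v`.

3. `g` not parabolic, `p₀ = bp g`, `s₀ = bs g = sz p₀`, `x = orb g`, `y = orb (g * tr v) = g (v, 1)`.
`‖x.u - p₀‖, ‖y.u - p₀‖ ≤ s₀/2` (normal form: `s₀ r/(r² + 1)`), so `|ℓ x.u - ℓ y.u| ≤ M`.  The term of `p₀`:
`vq p₀ y = v - bb g`, `vq p₀ x = - bb g` (`vq_of`), so its difference is `ℓ v` up to `2 R`.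
Other `p ∈ Q`, `p ≠ p₀`: `k = (rp p)⁻¹ g` is not parabolic (otherwise `bp g = p` by `coset`),
`D p := bs k = sz p sz p₀/‖p - p₀‖² ≤ 1/4` (`bp_ne`, `bs_le`).  For every point `w` of height `1`:
`(rp p)⁻¹ (g w) = k w`, whose distance `‖(k w).u - bp k‖ ≤ D p/2`.  So `‖vq p (g w) - vq p (g w')‖ ≤ D p` for all
`w, w'` of height `1`.  Let `z = (p₀, s₀)`; `z = g w` with `w = g⁻¹ z` of height `1`; `(g' z).t ≤ 1` for all `g'`
(`height_le` for `g' g` not parabolic, `w.t` for `g' g` parabolic).  If `p ∈ deep 4 x` or `p ∈ deep 4 y` then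
`p ∈ deep 3 z`.  CLAIM `D p ≤ 2 tq p z`: `tq p z = s s₀/(r² + s₀²)` with `s = sz p`, `r = ‖p₀ - p‖`, so it is enough
that `s₀ ≤ r`.  If `r < s₀`: `4 s s₀ ≤ r² < s₀²` (`sep`) gives `4 s < s₀`; `p ∈ deep 3 z` gives
`3 s₀² < s r` , so `3 s₀² < s r < s₀²/4`, a contradiction.  Hence the sum over `p ≠ p₀` of
`|χ (ℓ (vq p x)) - χ (ℓ (vq p y))| ≤ 2 M D p ≤ 4 M tq p z` over a subset of `deep 3 z` is at most `8 M`.
-/

namespace QIG

variable {m : ℕ} (P : Piece m)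

/-- The part of `s` outside of `[-R, R]`. -/
noncomputable def posB_chi (R s : ℝ) : ℝ := s - max (-R) (min s R)

theorem posB_chi_lip {R : ℝ} (a b : ℝ) : |posB_chi R a - posB_chi R b| ≤ 2 * |a - b| := by
  have h1 : |max (-R) (min a R) - max (-R) (min b R)| ≤ |a - b| := by
    have e1 : |max (-R) (min a R) - max (-R) (min b R)| ≤ |min a R - min b R| := by
      have := abs_max_sub_max_le_abs (min a R) (min b R) (-R)
      rwa [max_comm (min a R), max_comm (min b R)] at this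
    have e2 : |min a R - min b R| ≤ |a - b| := by
      have := abs_min_sub_min_le_max a R b R
      rwa [sub_self, abs_zero, max_eq_left (abs_nonneg _)] at this
    exact e1.trans e2
  unfold posB_chi
  have h2 : a - max (-R) (min a R) - (b - max (-R) (min b R)) =
      (a - b) - (max (-R) (min a R) - max (-R) (min b R)) := by ring
  rw [h2]
  have h3 := abs_sub (a - b) (max (-R) (min a R) - max (-R) (min b R))
  linarith

theorem posB_chi_near {R : ℝ} (hR : 0 ≤ R) (s : ℝ) : |posB_chi R s - s| ≤ R := by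
  unfold posB_chi
  rw [sub_sub_cancel_left, abs_neg, abs_le]
  exact ⟨le_max_left _ _, max_le (by linarith) (min_le_right _ _)⟩

theorem posB_chi_zero {R s : ℝ} (h : |s| ≤ R) : posB_chi R s = 0 := by
  rw [abs_le] at h
  unfold posB_chi
  rw [min_eq_left h.2, max_eq_right h.1, sub_self]

/-- The function `r` of the proof. -/
noncomputable def Piece.posB_r (ℓ : E m →ₗ[ℝ] ℝ) (R : ℝ) (x : HPt m) : ℝ :=
  ℓ x.u + ∑ p ∈ (P.deep_finite x).toFinset, posB_chi R (ℓ (P.vq p x))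

theorem Piece.posB_mem (x : HPt m) (p : E m) :
    p ∈ (P.deep_finite x).toFinset ↔ p ∈ P.Q ∧ 3 < ‖P.vq p x‖ := by
  rw [Set.Finite.mem_toFinset]
  rfl

theorem Piece.posB_r_eq {ℓ : E m →ₗ[ℝ] ℝ} {M : ℝ} (hM : 1 ≤ M) (hℓ : ∀ v, |ℓ v| ≤ M * ‖v‖)
    (x : HPt m) {F : Finset (E m)} (hF : (P.deep_finite x).toFinset ⊆ F)
    (hQ : ∀ p ∈ F, p ∈ P.Q) :
    P.posB_r ℓ (4 * M) x = ℓ x.u + ∑ p ∈ F, posB_chi (4 * M) (ℓ (P.vq p x)) := by
  unfold Piece.posB_r
  congr 1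
  refine Finset.sum_subset hF fun p hp hnp => ?_
  apply posB_chi_zero
  rw [P.posB_mem] at hnp
  have h1 : ‖P.vq p x‖ ≤ 3 := by
    by_contra hlt
    push Not at hlt
    exact hnp ⟨hQ p hp, hlt⟩
  have h2 := hℓ (P.vq p x)
  have h3 : M * ‖P.vq p x‖ ≤ M * 3 := mul_le_mul_of_nonneg_left h1 (by linarith)
  linarith

theorem Piece.posB_term {ℓ : E m →ₗ[ℝ] ℝ} {M : ℝ} (hM : 1 ≤ M) (hℓ : ∀ v, |ℓ v| ≤ M * ‖v‖)
    (p : E m) (x y : HPt m) :
    |posB_chi (4 * M) (ℓ (P.vq p x)) - posB_chi (4 * M) (ℓ (P.vq p y))| ≤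
      2 * M * ‖P.vq p x - P.vq p y‖ := by
  have h1 := posB_chi_lip (R := 4 * M) (ℓ (P.vq p x)) (ℓ (P.vq p y))
  rw [← map_sub] at h1
  have h2 := hℓ (P.vq p x - P.vq p y)
  linarith

theorem Piece.posB_lip {ℓ : E m →ₗ[ℝ] ℝ} {M : ℝ} (hM : 1 ≤ M) (hℓ : ∀ v, |ℓ v| ≤ M * ‖v‖)
    {x y : HPt m} (hx : ∀ g : P.Γ, (g.1 x).t ≤ 1) (hy : ∀ g : P.Γ, (g.1 y).t ≤ 1) :
    |P.posB_r ℓ (4 * M) x - P.posB_r ℓ (4 * M) y| ≤ 9 * M * q x y := by
  classical
  set Fx := (P.deep_finite x).toFinset with hFx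
  set Fy := (P.deep_finite y).toFinset with hFy
  have hQ : ∀ p ∈ Fx ∪ Fy, p ∈ P.Q := by
    intro p hp
    rcases Finset.mem_union.mp hp with h | h
    · exact ((P.posB_mem x p).mp h).1
    · exact ((P.posB_mem y p).mp h).1
  have hq := q_pos x y
  rw [P.posB_r_eq hM hℓ x Finset.subset_union_left hQ,
    P.posB_r_eq hM hℓ y Finset.subset_union_right hQ]
  have e1 : ℓ x.u + ∑ p ∈ Fx ∪ Fy, posB_chi (4 * M) (ℓ (P.vq p x)) -
      (ℓ y.u + ∑ p ∈ Fx ∪ Fy, posB_chi (4 * M) (ℓ (P.vq p y))) =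
      ℓ (x.u - y.u) + ∑ p ∈ Fx ∪ Fy,
        (posB_chi (4 * M) (ℓ (P.vq p x)) - posB_chi (4 * M) (ℓ (P.vq p y))) := by
    rw [map_sub, Finset.sum_sub_distrib]
    ring
  rw [e1]
  have hxt : x.t ≤ 1 := by
    have := hx 1
    simpa using this
  have h1 : |ℓ (x.u - y.u)| ≤ M * q x y := by
    refine (hℓ _).trans (mul_le_mul_of_nonneg_left ?_ (by linarith))
    refine (norm_le_q x y).trans ?_
    have := mul_le_mul_of_nonneg_left hxt hq.le
    linarith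
  have hnn : ∀ p, 0 ≤ |posB_chi (4 * M) (ℓ (P.vq p x)) - posB_chi (4 * M) (ℓ (P.vq p y))| :=
    fun p => abs_nonneg _
  have h2 : ∑ p ∈ Fx ∪ Fy, |posB_chi (4 * M) (ℓ (P.vq p x)) - posB_chi (4 * M) (ℓ (P.vq p y))| ≤
      ∑ p ∈ Fx, |posB_chi (4 * M) (ℓ (P.vq p x)) - posB_chi (4 * M) (ℓ (P.vq p y))| +
      ∑ p ∈ Fy, |posB_chi (4 * M) (ℓ (P.vq p x)) - posB_chi (4 * M) (ℓ (P.vq p y))| := by
    have h3 := Finset.sum_union_inter (s₁ := Fx) (s₂ := Fy)
      (f := fun p => |posB_chi (4 * M) (ℓ (P.vq p x)) - posB_chi (4 * M) (ℓ (P.vq p y))|)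
    have h4 : 0 ≤ ∑ p ∈ Fx ∩ Fy,
        |posB_chi (4 * M) (ℓ (P.vq p x)) - posB_chi (4 * M) (ℓ (P.vq p y))| :=
      Finset.sum_nonneg fun p _ => hnn p
    linarith
  have h5 : ∑ p ∈ Fx, |posB_chi (4 * M) (ℓ (P.vq p x)) - posB_chi (4 * M) (ℓ (P.vq p y))| ≤
      2 * M * q x y * 2 := by
    calc ∑ p ∈ Fx, |posB_chi (4 * M) (ℓ (P.vq p x)) - posB_chi (4 * M) (ℓ (P.vq p y))|
        ≤ ∑ p ∈ Fx, 2 * M * q x y * P.tq p x := by
          refine Finset.sum_le_sum fun p _ => ?_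
          refine (P.posB_term hM hℓ p x y).trans ?_
          have := mul_le_mul_of_nonneg_left (P.vq_sub_le p x y) (by linarith : 0 ≤ 2 * M)
          linarith
      _ = 2 * M * q x y * ∑ p ∈ Fx, P.tq p x := by rw [Finset.mul_sum]
      _ ≤ 2 * M * q x y * 2 := by
          refine mul_le_mul_of_nonneg_left (P.sum_tq_le hx Fx fun p hp => ?_) (by positivity)
          exact (P.posB_mem x p).mp hp
  have h6 : ∑ p ∈ Fy, |posB_chi (4 * M) (ℓ (P.vq p x)) - posB_chi (4 * M) (ℓ (P.vq p y))| ≤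
      2 * M * q x y * 2 := by
    calc ∑ p ∈ Fy, |posB_chi (4 * M) (ℓ (P.vq p x)) - posB_chi (4 * M) (ℓ (P.vq p y))|
        ≤ ∑ p ∈ Fy, 2 * M * q x y * P.tq p y := by
          refine Finset.sum_le_sum fun p _ => ?_
          rw [abs_sub_comm]
          refine (P.posB_term hM hℓ p y x).trans ?_
          have := mul_le_mul_of_nonneg_left (P.vq_sub_le p y x) (by linarith : 0 ≤ 2 * M)
          rw [q_comm y x] at this
          linarith
      _ = 2 * M * q x y * ∑ p ∈ Fy, P.tq p y := by rw [Finset.mul_sum]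
      _ ≤ 2 * M * q x y * 2 := by
          refine mul_le_mul_of_nonneg_left (P.sum_tq_le hy Fy fun p hp => ?_) (by positivity)
          exact (P.posB_mem y p).mp hp
  have h7 := Finset.abs_sum_le_sum_abs
    (fun p => posB_chi (4 * M) (ℓ (P.vq p x)) - posB_chi (4 * M) (ℓ (P.vq p y))) (Fx ∪ Fy)
  calc |ℓ (x.u - y.u) + ∑ p ∈ Fx ∪ Fy,
        (posB_chi (4 * M) (ℓ (P.vq p x)) - posB_chi (4 * M) (ℓ (P.vq p y)))|
      ≤ |ℓ (x.u - y.u)| + |∑ p ∈ Fx ∪ Fy,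
        (posB_chi (4 * M) (ℓ (P.vq p x)) - posB_chi (4 * M) (ℓ (P.vq p y)))| := abs_add_le _ _
    _ ≤ 9 * M * q x y := by linarith

theorem Piece.posB_orb_mul (g h : P.Γ) : g.1 (P.orb h) = P.orb (g * h) := rfl

theorem Piece.posB_orb_low (g : P.Γ) : ∀ g' : P.Γ, (g'.1 (P.orb g)).t ≤ 1 := by
  intro g'
  rw [P.posB_orb_mul]
  exact P.orb_t_le_one _

/-- at height one above a point no horoball is deep -/
theorem Piece.posB_flat {ℓ : E m →ₗ[ℝ] ℝ} {M : ℝ} (x : HPt m) (hx : x.t = 1) :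
    P.posB_r ℓ (4 * M) x = ℓ x.u := by
  unfold Piece.posB_r
  have h1 : (P.deep_finite x).toFinset = ∅ := by
    rw [Finset.eq_empty_iff_forall_notMem]
    intro p hp
    rw [P.posB_mem] at hp
    have h2 := P.vq_norm hp.1 x
    rw [hx] at h2
    have h3 := P.sz_bounds hp.1
    have h4 : 0 ≤ ‖x.u - p‖ := norm_nonneg _
    nlinarith [hp.2, sq_nonneg (‖x.u - p‖ - 1)]
  rw [h1, Finset.sum_empty, add_zero]

/-- the displacement seen from another base point changes little on a horosphere -/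
theorem Piece.posB_other {g : P.Γ} (hg : ¬ P.Par g) {p : E m} (hp : p ∈ P.Q) (hne : p ≠ bp g.1) :
    ∃ D : ℝ, 0 ≤ D ∧ D ≤ 1 / 4 ∧ D * ‖bp g.1 - p‖ ^ 2 = P.sz p * bs g.1 ∧
      0 < ‖bp g.1 - p‖ ∧
      ∀ w w' : HPt m, w.t = 1 → w'.t = 1 → ‖P.vq p (g.1 w) - P.vq p (g.1 w')‖ ≤ D := by
  obtain ⟨hr, hrp⟩ := P.rp_spec hp
  have hk : ¬ P.Par ((P.rp p)⁻¹ * g) := by
    intro h
    have h1 := (P.coset hr h).2.1
    exact hne (hrp.symm.trans h1.symm)
  have hI := P.isInv hk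
  have hb := P.bp_ne hr hg hk
  have hpos : 0 < ‖bp g.1 - p‖ := by
    rw [norm_pos_iff, sub_ne_zero]
    exact hne.symm
  refine ⟨bs ((P.rp p)⁻¹ * g).1, hI.pos.le, P.bs_le hk, ?_, hpos, ?_⟩
  · have h2 := hb.2.1
    rw [hrp] at h2
    have h3 : P.sz p = bs (P.rp p).1 := by
      have := P.sz_eq hr
      rwa [hrp] at this
    rw [h2, h3]
    field_simp
  · intro w w' hw hw'
    have e : ∀ z : HPt m, P.vq p (g.1 z) = (((P.rp p)⁻¹ * g).1 z).u - bb (P.rp p).1 := by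
      intro z
      rfl
    rw [e, e, sub_sub_sub_cancel_right]
    have h4 := hI.norm_u_sub w
    have h5 := hI.norm_u_sub w'
    rw [hw] at h4
    rw [hw'] at h5
    have h6 : ‖(((P.rp p)⁻¹ * g).1 w).u - (((P.rp p)⁻¹ * g).1 w').u‖ ≤
        ‖(((P.rp p)⁻¹ * g).1 w).u - bp ((P.rp p)⁻¹ * g).1‖ +
        ‖(((P.rp p)⁻¹ * g).1 w').u - bp ((P.rp p)⁻¹ * g).1‖ := by
      rw [norm_sub_rev (((P.rp p)⁻¹ * g).1 w').u]
      exact norm_sub_le_norm_sub_add_norm_sub _ _ _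
    linarith

/-- the lowest point of the horoball -/
theorem Piece.posB_z {g : P.Γ} (hg : ¬ P.Par g) : ∃ z w : HPt m, z.u = bp g.1 ∧
    z.t = bs g.1 ∧ w.t = 1 ∧ g.1 w = z ∧ ∀ g' : P.Γ, (g'.1 z).t ≤ 1 := by
  have hI := P.isInv hg
  have hJ := hI.inv
  have hs := hI.pos
  set z : HPt m := ⟨bp g.1, bs g.1, hs⟩ with hz
  have hw : (g.1⁻¹ z).t = 1 := by
    rw [hJ.t_eq]
    change bs g.1 * bs g.1 / (‖bp g.1 - bp g.1‖ ^ 2 + bs g.1 ^ 2) = 1
    rw [sub_self, norm_zero]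
    field_simp
    ring
  have hgw : g.1 (g.1⁻¹ z) = z := g.1.apply_symm_apply z
  refine ⟨z, g.1⁻¹ z, rfl, rfl, hw, hgw, fun g' => ?_⟩
  have h1 : g'.1 z = (g' * g).1 (g.1⁻¹ z) := by
    change g'.1 z = g'.1 (g.1 (g.1⁻¹ z))
    rw [hgw]
  rw [h1]
  by_cases hpar : P.Par (g' * g)
  · obtain ⟨v, hv⟩ := hpar
    rw [hv, transl_t, hw]
  · have h2 := P.height_le hpar (g.1⁻¹ z)
    rw [hw] at h2
    linarith

theorem Piece.posB_horo {ℓ : E m →ₗ[ℝ] ℝ} {M : ℝ} (hM : 1 ≤ M) (hℓ : ∀ v, |ℓ v| ≤ M * ‖v‖)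
    {g : P.Γ} (hg : ¬ P.Par g) (v : P.lat) :
    |P.posB_r ℓ (4 * M) (P.orb (g * P.tr v)) - P.posB_r ℓ (4 * M) (P.orb g) - ℓ (v : E m)| ≤
      17 * M := by
  classical
  set x : HPt m := P.orb g with hx
  set y : HPt m := P.orb (g * P.tr v) with hy
  set w1 : HPt m := base m with hw1
  set w2 : HPt m := transl (v : E m) (base m) with hw2
  have hxg : x = g.1 w1 := rfl
  have hyg : y = g.1 w2 := rfl
  have hw1t : w1.t = 1 := rfl
  have hw2t : w2.t = 1 := rfl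
  have hI := P.isInv hg
  have hp0Q : bp g.1 ∈ P.Q := ⟨g, hg, rfl⟩
  have hs4 := P.bs_le hg
  set Fx := (P.deep_finite x).toFinset with hFx
  set Fy := (P.deep_finite y).toFinset with hFy
  set U : Finset (E m) := insert (bp g.1) (Fx ∪ Fy) with hU
  have hQ : ∀ p ∈ U, p ∈ P.Q := by
    intro p hp
    rcases Finset.mem_insert.mp hp with h | h
    · rw [h]
      exact hp0Q
    · rcases Finset.mem_union.mp h with h | h
      · exact ((P.posB_mem x p).mp h).1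
      · exact ((P.posB_mem y p).mp h).1
  have hxU : Fx ⊆ U := Finset.subset_union_left.trans (Finset.subset_insert _ _)
  have hyU : Fy ⊆ U := Finset.subset_union_right.trans (Finset.subset_insert _ _)
  rw [P.posB_r_eq hM hℓ x hxU hQ, P.posB_r_eq hM hℓ y hyU hQ]
  have hmem : bp g.1 ∈ U := Finset.mem_insert_self _ _
  have e1 : ℓ y.u + ∑ p ∈ U, posB_chi (4 * M) (ℓ (P.vq p y)) -
      (ℓ x.u + ∑ p ∈ U, posB_chi (4 * M) (ℓ (P.vq p x))) - ℓ (v : E m) =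
      ℓ (y.u - x.u) + (posB_chi (4 * M) (ℓ (P.vq (bp g.1) y)) -
        posB_chi (4 * M) (ℓ (P.vq (bp g.1) x)) - ℓ (v : E m)) + ∑ p ∈ U.erase (bp g.1),
        (posB_chi (4 * M) (ℓ (P.vq p y)) - posB_chi (4 * M) (ℓ (P.vq p x))) := by
    rw [map_sub, ← Finset.add_sum_erase U _ hmem, ← Finset.add_sum_erase U _ hmem,
      Finset.sum_sub_distrib]
    ring
  rw [e1]
  -- the part of infinity
  have hA : |ℓ (y.u - x.u)| ≤ M := by
    refine (hℓ _).trans ?_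
    have h1 := hI.norm_u_sub w1
    have h2 := hI.norm_u_sub w2
    rw [hw1t] at h1
    rw [hw2t] at h2
    have h3 : ‖y.u - x.u‖ ≤ ‖y.u - bp g.1‖ + ‖x.u - bp g.1‖ := by
      rw [norm_sub_rev x.u]
      exact norm_sub_le_norm_sub_add_norm_sub _ _ _
    have h4 : ‖y.u - x.u‖ ≤ 1 := by
      rw [← hxg] at h1
      rw [← hyg] at h2
      linarith
    calc M * ‖y.u - x.u‖ ≤ M * 1 := mul_le_mul_of_nonneg_left h4 (by linarith)
      _ = M := mul_one M
  -- the part of the base point of the horoball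
  have hB : |posB_chi (4 * M) (ℓ (P.vq (bp g.1) y)) - posB_chi (4 * M) (ℓ (P.vq (bp g.1) x)) -
      ℓ (v : E m)| ≤ 8 * M := by
    have hvy : P.vq (bp g.1) y = (v : E m) - bb g.1 := by
      rw [P.vq_of hg y]
      have h1 : g.1⁻¹ y = w2 := g.1.symm_apply_apply w2
      rw [h1]
      change (0 : E m) + (v : E m) - bb g.1 = _
      rw [zero_add]
    have hvx : P.vq (bp g.1) x = - bb g.1 := by
      rw [P.vq_of hg x]
      have h1 : g.1⁻¹ x = w1 := g.1.symm_apply_apply w1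
      rw [h1]
      change (0 : E m) - bb g.1 = _
      rw [zero_sub]
    have h1 := posB_chi_near (by linarith : (0 : ℝ) ≤ 4 * M) (ℓ (P.vq (bp g.1) y))
    have h2 := posB_chi_near (by linarith : (0 : ℝ) ≤ 4 * M) (ℓ (P.vq (bp g.1) x))
    have h3 : ℓ (P.vq (bp g.1) y) - ℓ (P.vq (bp g.1) x) = ℓ (v : E m) := by
      rw [hvy, hvx, ← map_sub]
      congr 1
      abel
    rw [abs_le] at h1 h2 ⊢
    constructor <;> linarith [h1.1, h1.2, h2.1, h2.2]
  -- the other base points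
  have hC : |∑ p ∈ U.erase (bp g.1),
      (posB_chi (4 * M) (ℓ (P.vq p y)) - posB_chi (4 * M) (ℓ (P.vq p x)))| ≤ 8 * M := by
    obtain ⟨z, w, hzu, hzt, hwt, hgw, hzlow⟩ := P.posB_z hg
    have hterm : ∀ p ∈ U.erase (bp g.1),
        |posB_chi (4 * M) (ℓ (P.vq p y)) - posB_chi (4 * M) (ℓ (P.vq p x))| ≤
          if p ∈ P.deep 3 z then 4 * M * P.tq p z else 0 := by
      intro p hp
      obtain ⟨hpne, hpU⟩ := Finset.mem_erase.mp hp
      have hpQ := hQ p hpU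
      obtain ⟨D, hD0, hD4, hDeq, hrpos, hD⟩ := P.posB_other hg hpQ hpne
      have hxy : ‖P.vq p y - P.vq p x‖ ≤ D := hD w2 w1 hw2t hw1t
      have hxz : ‖P.vq p x - P.vq p z‖ ≤ D := by
        rw [← hgw]
        exact hD w1 w hw1t hwt
      have hyz : ‖P.vq p y - P.vq p z‖ ≤ D := by
        rw [← hgw]
        exact hD w2 w hw2t hwt
      by_cases hpz : p ∈ P.deep 3 z
      · rw [if_pos hpz]
        refine (P.posB_term hM hℓ p y x).trans ?_
        have htq := P.tq_eq hpQ z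
        have hvn := P.vq_norm hpQ z
        rw [hzu, hzt] at htq hvn
        have hs0 := hI.pos
        have hszp := (P.sz_bounds hpQ).1
        have hsep := P.sep hpQ hp0Q hpne
        rw [P.sz_eq hg, norm_sub_rev p] at hsep
        have hdeep : 3 < ‖P.vq p z‖ := hpz.2
        set r : ℝ := ‖bp g.1 - p‖ with hr
        set s₀ : ℝ := bs g.1 with hs₀
        have hs0r : s₀ ≤ r := by
          by_contra hlt
          push Not at hlt
          have h1 : 4 * (P.sz p * s₀) < s₀ ^ 2 := by nlinarith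
          have h2 : 4 * P.sz p < s₀ := by
            by_contra h3
            push Not at h3
            nlinarith
          have h3 : 3 * (r ^ 2 + s₀ ^ 2) < P.sz p * r := by
            rw [← hvn]
            exact mul_lt_mul_of_pos_right hdeep (by positivity)
          nlinarith
        have hDt : D ≤ 2 * P.tq p z := by
          have htqp := P.tq_pos p z
          have h1 : D * r ^ 2 = P.tq p z * (r ^ 2 + s₀ ^ 2) := hDeq.trans htq.symm
          have h2 : P.tq p z * (r ^ 2 + s₀ ^ 2) ≤ P.tq p z * (2 * r ^ 2) :=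
            mul_le_mul_of_nonneg_left (by nlinarith) htqp.le
          have h3 : D * r ^ 2 ≤ (2 * P.tq p z) * r ^ 2 := by linarith
          exact le_of_mul_le_mul_right h3 (by positivity)
        have h4 : 2 * M * ‖P.vq p y - P.vq p x‖ ≤ 2 * M * (2 * P.tq p z) :=
          mul_le_mul_of_nonneg_left (hxy.trans hDt) (by linarith)
        linarith
      · rw [if_neg hpz]
        have hz3 : ‖P.vq p z‖ ≤ 3 := by
          by_contra hlt
          push Not at hlt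
          exact hpz ⟨hpQ, hlt⟩
        have h1 : ‖P.vq p x‖ ≤ 4 := by
          have h2 : ‖P.vq p x‖ ≤ ‖P.vq p x - P.vq p z‖ + ‖P.vq p z‖ := by
            have := norm_add_le (P.vq p x - P.vq p z) (P.vq p z)
            rwa [sub_add_cancel] at this
          linarith
        have h2 : ‖P.vq p y‖ ≤ 4 := by
          have h2 : ‖P.vq p y‖ ≤ ‖P.vq p y - P.vq p z‖ + ‖P.vq p z‖ := by
            have := norm_add_le (P.vq p y - P.vq p z) (P.vq p z)
            rwa [sub_add_cancel] at this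
          linarith
        have e2 : posB_chi (4 * M) (ℓ (P.vq p x)) = 0 := by
          apply posB_chi_zero
          have h3 := hℓ (P.vq p x)
          have h4 := mul_le_mul_of_nonneg_left h1 (by linarith : 0 ≤ M)
          linarith
        have e3 : posB_chi (4 * M) (ℓ (P.vq p y)) = 0 := by
          apply posB_chi_zero
          have h3 := hℓ (P.vq p y)
          have h4 := mul_le_mul_of_nonneg_left h2 (by linarith : 0 ≤ M)
          linarith
        rw [e2, e3, sub_self, abs_zero]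
    refine (Finset.abs_sum_le_sum_abs _ _).trans ((Finset.sum_le_sum hterm).trans ?_)
    rw [← Finset.sum_filter, ← Finset.mul_sum]
    have h1 := P.sum_tq_le hzlow ((U.erase (bp g.1)).filter (fun p => p ∈ P.deep 3 z))
      (fun p hp => (Finset.mem_filter.mp hp).2)
    have h2 := mul_le_mul_of_nonneg_left h1 (by linarith : 0 ≤ 4 * M)
    linarith
  have h1 := abs_add_le (ℓ (y.u - x.u) + (posB_chi (4 * M) (ℓ (P.vq (bp g.1) y)) -
        posB_chi (4 * M) (ℓ (P.vq (bp g.1) x)) - ℓ (v : E m))) (∑ p ∈ U.erase (bp g.1),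
        (posB_chi (4 * M) (ℓ (P.vq p y)) - posB_chi (4 * M) (ℓ (P.vq p x))))
  have h2 := abs_add_le (ℓ (y.u - x.u)) (posB_chi (4 * M) (ℓ (P.vq (bp g.1) y)) -
        posB_chi (4 * M) (ℓ (P.vq (bp g.1) x)) - ℓ (v : E m))
  linarith

theorem posB_bound (ℓ : E m →ₗ[ℝ] ℝ) : ∃ M : ℝ, 1 ≤ M ∧ ∀ v, |ℓ v| ≤ M * ‖v‖ := by
  have h0 := norm_nonneg (LinearMap.toContinuousLinearMap ℓ)
  refine ⟨‖LinearMap.toContinuousLinearMap ℓ‖ + 1, by linarith, fun v => ?_⟩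
  have h1 := (LinearMap.toContinuousLinearMap ℓ).le_opNorm v
  rw [Real.norm_eq_abs] at h1
  have h2 : (LinearMap.toContinuousLinearMap ℓ) v = ℓ v := rfl
  rw [h2] at h1
  have h3 := norm_nonneg v
  linarith

theorem Piece.exists_rho (ℓ : E m →ₗ[ℝ] ℝ) : ∃ ρ : P.Γ → ℝ,
    (∀ h : P.Γ, ∃ C : ℝ, ∀ g : P.Γ, |ρ (g * h) - ρ g| ≤ C) ∧
    ∃ C : ℝ, ∀ (g : P.Γ) (v : P.lat), |ρ (g * P.tr v) - ρ g - ℓ (v : E m)| ≤ C := by
  obtain ⟨M, hM, hℓ⟩ := posB_bound ℓ
  refine ⟨fun g => P.posB_r ℓ (4 * M) (P.orb g), fun h => ?_, 17 * M, fun g v => ?_⟩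
  · refine ⟨9 * M * q (base m) (P.orb h), fun g => ?_⟩
    have h1 := P.posB_lip hM hℓ (P.posB_orb_low (g * h)) (P.posB_orb_low g)
    have h2 : q (P.orb (g * h)) (P.orb g) = q (base m) (P.orb h) := by
      rw [q_comm, ← P.posB_orb_mul g h]
      exact q_isom (P.isom' g) (base m) (P.orb h)
    rwa [h2] at h1
  · by_cases hg : P.Par g
    · obtain ⟨w, rfl⟩ := (P.par_iff g).mp hg
      have h1 : P.posB_r ℓ (4 * M) (P.orb (P.tr w)) = ℓ (w : E m) := by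
        rw [P.posB_flat (P.orb (P.tr w)) rfl]
        congr 1
        change (0 : E m) + (w : E m) = w
        rw [zero_add]
      have h2 : P.posB_r ℓ (4 * M) (P.orb (P.tr w * P.tr v)) = ℓ (w : E m) + ℓ (v : E m) := by
        rw [← P.tr_add, P.posB_flat (P.orb (P.tr (w + v))) rfl, ← map_add]
        congr 1
        change (0 : E m) + ((w + v : P.lat) : E m) = _
        rw [zero_add]
        rfl
      simp only [h1, h2]
      rw [add_sub_cancel_left, sub_self, abs_zero]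
      linarith
    · exact P.posB_horo hM hℓ hg v

/-- The mirror version: `g ↦ - ρ g⁻¹` for the `ρ` of `exists_rho`. -/
theorem Piece.exists_rho' (ℓ : E m →ₗ[ℝ] ℝ) : ∃ ρ : P.Γ → ℝ,
    (∀ h : P.Γ, ∃ C : ℝ, ∀ g : P.Γ, |ρ (h * g) - ρ g| ≤ C) ∧
    ∃ C : ℝ, ∀ (g : P.Γ) (v : P.lat), |ρ (P.tr v * g) - ρ g - ℓ (v : E m)| ≤ C := by
  obtain ⟨ρ, h1, C, h2⟩ := P.exists_rho ℓ
  refine ⟨fun g => - ρ g⁻¹, fun h => ?_, C, fun g v => ?_⟩
  · obtain ⟨C', hC'⟩ := h1 h⁻¹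
    refine ⟨C', fun g => ?_⟩
    have h3 := hC' g⁻¹
    show |- ρ (h * g)⁻¹ - - ρ g⁻¹| ≤ C'
    rw [mul_inv_rev, show - ρ (g⁻¹ * h⁻¹) - - ρ g⁻¹ = -(ρ (g⁻¹ * h⁻¹) - ρ g⁻¹) by ring, abs_neg]
    exact h3
  · have h3 := h2 g⁻¹ (-v)
    rw [P.tr_neg] at h3
    have h4 : ℓ ((-v : P.lat) : E m) = - ℓ (v : E m) := by
      rw [← map_neg]
      rfl
    rw [h4] at h3
    show |- ρ (P.tr v * g)⁻¹ - - ρ g⁻¹ - ℓ (v : E m)| ≤ C
    rw [mul_inv_rev, show - ρ (g⁻¹ * (P.tr v)⁻¹) - - ρ g⁻¹ - ℓ (v : E m) =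
      -(ρ (g⁻¹ * (P.tr v)⁻¹) - ρ g⁻¹ - - ℓ (v : E m)) by ring, abs_neg]
    exact h3

end QIG
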