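import Pool.Agent.W_a51130_h62.Amal
import Pool.Agent.W_a51130_h62.AmalRec
import Pool.Agent.W_a51130_h62.Word

/-!
Coarse maps between amalgams (positive part, file C).

`CDat φ φ'`: right transversals `tl i (G i)` of `H` in `G i` (`g = φ i (hd i g) * tl i g`), a map `τ i` of the
transversal to `G' i` and a map `A : H → H'`, such that `loc i (φ i l * t) = φ' i (A l) * τ i t` is coarsely Lipschitz.

PROOFS.
`exists_map`: `AmalStr.exists_rec` with `X = H × (PushoutI φ × PushoutI φ')` (a structure of its own with the action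
of `H` by left multiplication on the first component), `x₀ = (1, 1, 1)`,
`F i g (h, w, c) = (hd i (g * φ i h), of i (tl i (g * φ i h)) * w, of' i (τ i (tl i (g * φ i h))) * c)`.
`hF1`: `g * φ i l * φ i h = g * φ i (l * h)`; `hF2`: `tl_mul` and `hd i (φ i l * x) = l * hd i x` (`hd_mul`, from `split`,
`tl_mul` and injectivity of `φ i`).  The formula for `g ∈ (φ i).range`, `g = φ i l`: then `of i g * x = base l * x`,
`hd i (φ i (l * h)) = l * h` and `tl i (φ i (l * h)) = tl i 1 = 1`, `τ i 1 = 1`.  `x = base (hh x) * ww x` by `AmalStr.ind`.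
`lip`: let `F x = base' (D.A (hh x)) * cc x`.  For given `i`, `s` and `x` there are `g`, `y` with `x = of i g * y`,
`side y ≠ some i` (if `side x ≠ some i` take `g = 1`, `y = x`; otherwise `exists_cons`).  With `u = g * φ i (hh y)`:
`F x = of' i (loc i u) * cc y`, `F (of i s * x) = of' i (loc i (s * u)) * cc y`.
`comp`: by `AmalStr.ind` for the first amalgam: `side' (cc x) = side x`, `hh' (cc x) = 1`, `cc' (cc x) = ww x`
(for `x = of i g * y`, `g ∉ range`: `cc x = of' i (τ i t) * cc y`, `t = tl i (g * φ i (hh y))`, `τ i t ∉ range (φ' i)`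
because otherwise `D'.tl i (τ i t) = 1`, so `τ i t = 1 = τ i 1` and `t = D'.τ i (D.τ i t) = D'.τ i 1 = 1`, so
`g ∈ range`).  Then `F' (F x) = base (D'.A (D.A (hh x))) * ww x`.
-/

namespace QIG

open Monoid

variable {ι : Type} {G G' : ι → Type} [∀ i, Group (G i)] [∀ i, Group (G' i)] {H H' : Type}
  [Group H] [Group H']

/-- Data for a coarse map of amalgams. -/
structure CDat (φ : ∀ i, H →* G i) (φ' : ∀ i, H' →* G' i) where
  hd : ∀ i, G i → H
  tl : ∀ i, G i → G i
  τ : ∀ i, G i → G' i
  A : H → H'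
  split : ∀ i g, g = φ i (hd i g) * tl i g
  tl_mul : ∀ i (l : H) g, tl i (φ i l * g) = tl i g
  tl_one : ∀ i, tl i 1 = 1
  τ_one : ∀ i, τ i 1 = 1

variable {φ : ∀ i, H →* G i} {φ' : ∀ i, H' →* G' i}

/-- The local map. -/
def CDat.loc (D : CDat φ φ') (i : ι) (g : G i) : G' i := φ' i (D.A (D.hd i g)) * D.τ i (D.tl i g)

/-- The maps on the amalgam: head, tail and image of the tail. -/
structure CMap (D : CDat φ φ') (S : AmalStr φ) where
  hh : PushoutI φ → H
  ww : PushoutI φ → PushoutI φ
  cc : PushoutI φ → PushoutI φ'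
  hh_base : ∀ l, hh (PushoutI.base φ l) = l
  ww_base : ∀ l, ww (PushoutI.base φ l) = 1
  cc_base : ∀ l, cc (PushoutI.base φ l) = 1
  hh_mul : ∀ l x, hh (PushoutI.base φ l * x) = l * hh x
  ww_mul : ∀ l x, ww (PushoutI.base φ l * x) = ww x
  cc_mul : ∀ l x, cc (PushoutI.base φ l * x) = cc x
  split : ∀ x, x = PushoutI.base φ (hh x) * ww x
  hh_of : ∀ i (g : G i) x, S.side x ≠ some i → hh (PushoutI.of i g * x) = D.hd i (g * φ i (hh x))
  ww_of : ∀ i (g : G i) x, S.side x ≠ some i →
    ww (PushoutI.of i g * x) = PushoutI.of i (D.tl i (g * φ i (hh x))) * ww x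
  cc_of : ∀ i (g : G i) x, S.side x ≠ some i →
    cc (PushoutI.of i g * x) = PushoutI.of i (D.τ i (D.tl i (g * φ i (hh x)))) * cc x

/-- The target of the recursion in `CDat.exists_map`. -/
structure CDatX (H K K' : Type) where
  h : H
  w : K
  c : K'

instance cDatXAction {H K K' : Type} [Group H] : MulAction H (CDatX H K K') where
  smul l x := ⟨l * x.h, x.w, x.c⟩
  one_smul x := by
    show (⟨1 * x.h, x.w, x.c⟩ : CDatX H K K') = x
    rw [one_mul]
  mul_smul a b x := by
    show (⟨a * b * x.h, x.w, x.c⟩ : CDatX H K K') = ⟨a * (b * x.h), x.w, x.c⟩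
    rw [mul_assoc]

theorem cDatX_smul {H K K' : Type} [Group H] (l : H) (x : CDatX H K K') :
    l • x = ⟨l * x.h, x.w, x.c⟩ := rfl

theorem CDat.hd_mul (D : CDat φ φ') (hφ : ∀ i, Function.Injective (φ i)) (i : ι) (l : H)
    (g : G i) : D.hd i (φ i l * g) = l * D.hd i g := by
  apply hφ i
  have h1 := D.split i (φ i l * g)
  rw [D.tl_mul] at h1
  have h2 := D.split i g
  have h3 : φ i l * g = φ i (l * D.hd i g) * D.tl i g := by
    conv_lhs => rw [h2]
    rw [map_mul, mul_assoc]
  exact mul_right_cancel (h1.symm.trans h3)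

theorem CDat.hd_phi (D : CDat φ φ') (hφ : ∀ i, Function.Injective (φ i)) (i : ι) (l : H) :
    D.hd i (φ i l) = l := by
  apply hφ i
  have h1 := D.split i (φ i l)
  have h2 := D.tl_mul i l 1
  rw [mul_one, D.tl_one] at h2
  rw [h2, mul_one] at h1
  exact h1.symm

theorem CDat.tl_phi (D : CDat φ φ') (i : ι) (l : H) : D.tl i (φ i l) = 1 := by
  have h2 := D.tl_mul i l 1
  rwa [mul_one, D.tl_one] at h2

theorem CDat.exists_map (D : CDat φ φ') (hφ : ∀ i, Function.Injective (φ i)) (S : AmalStr φ) :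
    Nonempty (CMap D S) := by
  obtain ⟨f, hf1, hf2, hf3⟩ := S.exists_rec hφ
    (X := CDatX H (PushoutI φ) (PushoutI φ')) ⟨1, 1, 1⟩
    (fun i g x => ⟨D.hd i (g * φ i x.h), PushoutI.of i (D.tl i (g * φ i x.h)) * x.w,
      PushoutI.of i (D.τ i (D.tl i (g * φ i x.h))) * x.c⟩)
    (by
      intro i g _ l x
      rw [cDatX_smul]
      simp only [map_mul, mul_assoc])
    (by
      intro i g _ l x
      rw [cDatX_smul]
      simp only [mul_assoc, D.tl_mul, D.hd_mul hφ])
  have key : ∀ i (g : G i) x, S.side x ≠ some i → f (PushoutI.of i g * x) =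
      ⟨D.hd i (g * φ i (f x).h), PushoutI.of i (D.tl i (g * φ i (f x).h)) * (f x).w,
      PushoutI.of i (D.τ i (D.tl i (g * φ i (f x).h))) * (f x).c⟩ := by
    intro i g x hx
    by_cases hg : g ∈ (φ i).range
    · obtain ⟨l, rfl⟩ := hg
      rw [PushoutI.of_apply_eq_base, hf2, cDatX_smul, ← map_mul, D.hd_phi hφ, D.tl_phi, D.τ_one,
        map_one, map_one, one_mul, one_mul]
    · exact hf3 i g hg x hx
  refine ⟨{ hh := fun x => (f x).h
            ww := fun x => (f x).w
            cc := fun x => (f x).c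
            hh_base := ?_
            ww_base := ?_
            cc_base := ?_
            hh_mul := ?_
            ww_mul := ?_
            cc_mul := ?_
            split := ?_
            hh_of := ?_
            ww_of := ?_
            cc_of := ?_ }⟩
  · intro l
    simp only [hf1, cDatX_smul, mul_one]
  · intro l
    simp only [hf1, cDatX_smul]
  · intro l
    simp only [hf1, cDatX_smul]
  · intro l x
    simp only [hf2, cDatX_smul]
  · intro l x
    simp only [hf2, cDatX_smul]
  · intro l x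
    simp only [hf2, cDatX_smul]
  · refine S.ind ?_ ?_
    · intro l
      simp only [hf1, cDatX_smul, mul_one]
    · intro i g hg h hh ih
      simp only [key i g h hh]
      rw [← PushoutI.of_apply_eq_base φ i, ← mul_assoc, ← map_mul, ← D.split i, map_mul,
        PushoutI.of_apply_eq_base, mul_assoc]
      exact congrArg _ ih
  · intro i g x hx
    simp only [key i g x hx]
  · intro i g x hx
    simp only [key i g x hx]
  · intro i g x hx
    simp only [key i g x hx]

/-- The map of amalgams. -/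
def CMap.F {D : CDat φ φ'} {S : AmalStr φ} (M : CMap D S) (x : PushoutI φ) : PushoutI φ' :=
  PushoutI.base φ' (D.A (M.hh x)) * M.cc x

theorem CMap.lip {D : CDat φ φ'} {S : AmalStr φ} (M : CMap D S) (i : ι) (s : G i)
    (hs : {x | ∃ g : G i, x = D.loc i (s * g) * (D.loc i g)⁻¹}.Finite) :
    {x | ∃ g : PushoutI φ, x = M.F (PushoutI.of i s * g) * (M.F g)⁻¹}.Finite := by
  have hF : ∀ (g : G i) y, S.side y ≠ some i → M.F (PushoutI.of i g * y) =
      PushoutI.of i (D.loc i (g * φ i (M.hh y))) * M.cc y := by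
    intro g y hy
    unfold CMap.F CDat.loc
    rw [M.hh_of i g y hy, M.cc_of i g y hy, ← PushoutI.of_apply_eq_base φ' i, ← mul_assoc,
      ← map_mul]
  refine (hs.image (PushoutI.of (φ := φ') i)).subset ?_
  rintro x ⟨z, rfl⟩
  have h1 : ∃ (g : G i) (y : PushoutI φ), S.side y ≠ some i ∧ z = PushoutI.of i g * y := by
    by_cases hz : S.side z = some i
    · obtain ⟨g, -, y, hy, rfl⟩ := S.exists_cons i z hz
      exact ⟨g, y, hy, rfl⟩
    · exact ⟨1, z, hz, by rw [map_one, one_mul]⟩
  obtain ⟨g, y, hy, rfl⟩ := h1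
  refine ⟨_, ⟨g * φ i (M.hh y), rfl⟩, ?_⟩
  have e : PushoutI.of (φ := φ) i s * (PushoutI.of i g * y) = PushoutI.of i (s * g) * y := by
    rw [map_mul, mul_assoc]
  rw [e, hF (s * g) y hy, hF g y hy, map_mul, map_inv, mul_assoc s g, mul_inv_rev]
  group

end QIG
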