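import Pool.Agent.W_a51130_h62.Pos.C

/-!
Composition of two coarse maps of amalgams (positive part, file C2).  The proof is described in the header of
`Pos/C.lean` (`comp`): by `AmalStr.ind` for the first amalgam one shows for all `x`
`S'.side (M.cc x) = S.side x`, `M'.hh (M.cc x) = 1`, `M'.cc (M.cc x) = M.ww x`.
-/

namespace QIG

open Monoid

variable {ι : Type} {G G' : ι → Type} [∀ i, Group (G i)] [∀ i, Group (G' i)] {H H' : Type}
  [Group H] [Group H'] {φ : ∀ i, H →* G i} {φ' : ∀ i, H' →* G' i}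

theorem CMap.comp_phi_inj {D' : CDat φ' φ} {S' : AmalStr φ'} (M' : CMap D' S') (i : ι) :
    Function.Injective (φ' i) := by
  intro a b hab
  have h : PushoutI.base φ' a = PushoutI.base φ' b := by
    rw [← PushoutI.of_apply_eq_base φ' i, ← PushoutI.of_apply_eq_base φ' i, hab]
  have h2 := congrArg M'.hh h
  rwa [M'.hh_base, M'.hh_base] at h2

theorem CMap.comp_aux {D : CDat φ φ'} {D' : CDat φ' φ} {S : AmalStr φ} {S' : AmalStr φ'}
    (M : CMap D S) (M' : CMap D' S')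
    (h1 : ∀ i g, D'.tl i (D.τ i (D.tl i g)) = D.τ i (D.tl i g))
    (h2 : ∀ i g, D'.τ i (D.τ i (D.tl i g)) = D.tl i g) :
    ∀ x, S'.side (M.cc x) = S.side x ∧ M'.hh (M.cc x) = 1 ∧ M'.cc (M.cc x) = M.ww x := by
  refine S.ind ?_ ?_
  · intro l
    have e : (1 : PushoutI φ') = PushoutI.base φ' 1 := (map_one _).symm
    rw [M.cc_base, M.ww_base]
    refine ⟨?_, ?_, ?_⟩
    · rw [e, S'.side_base, S.side_base]
    · rw [e, M'.hh_base]
    · rw [e, M'.cc_base]
  · intro i g hg h hh ih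
    obtain ⟨ih1, ih2, ih3⟩ := ih
    have hs : S'.side (M.cc h) ≠ some i := by rwa [ih1]
    have hcc := M.cc_of i g h hh
    have hww := M.ww_of i g h hh
    have ht1 := h1 i (g * φ i (M.hh h))
    have ht2 := h2 i (g * φ i (M.hh h))
    have hsp := D.split i (g * φ i (M.hh h))
    generalize D.tl i (g * φ i (M.hh h)) = t at hcc hww ht1 ht2 hsp
    have hnr : D.τ i t ∉ (φ' i).range := by
      rintro ⟨l', hl'⟩
      apply hg
      have e1 : D.τ i t = 1 := by
        rw [← ht1, ← hl', D'.tl_phi]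
      have e2 : t = 1 := by
        rw [← ht2, e1, D'.τ_one]
      rw [e2, mul_one] at hsp
      refine ⟨D.hd i (g * φ i (M.hh h)) * (M.hh h)⁻¹, ?_⟩
      rw [map_mul, ← hsp, map_inv, mul_inv_cancel_right]
    have hhd : D'.hd i (D.τ i t) = 1 := by
      apply M'.comp_phi_inj i
      have e3 := D'.split i (D.τ i t)
      rw [ht1] at e3
      rw [map_one]
      exact (mul_eq_right.mp e3.symm)
    refine ⟨?_, ?_, ?_⟩
    · rw [hcc, S'.side_cons i _ hnr _ hs, S.side_cons i g hg h hh]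
    · rw [hcc, M'.hh_of i _ _ hs, ih2, map_one, mul_one, hhd]
    · rw [hcc, M'.cc_of i _ _ hs, ih2, map_one, mul_one, ht1, ht2, ih3, hww]

theorem CMap.comp {D : CDat φ φ'} {D' : CDat φ' φ} {S : AmalStr φ} {S' : AmalStr φ'}
    (M : CMap D S) (M' : CMap D' S')
    (h1 : ∀ i g, D'.tl i (D.τ i (D.tl i g)) = D.τ i (D.tl i g))
    (h2 : ∀ i g, D'.τ i (D.τ i (D.tl i g)) = D.tl i g)
    (hf : {x | ∃ l : H, x = D'.A (D.A l) * l⁻¹}.Finite) :
    {x | ∃ g : PushoutI φ, x = M'.F (M.F g) * g⁻¹}.Finite := by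
  refine (hf.image (PushoutI.base φ)).subset ?_
  rintro x ⟨g, rfl⟩
  refine ⟨_, ⟨M.hh g, rfl⟩, ?_⟩
  obtain ⟨-, e2, e3⟩ := M.comp_aux M' h1 h2 g
  have e4 : M'.F (M.F g) = PushoutI.base φ (D'.A (D.A (M.hh g))) * M.ww g := by
    unfold CMap.F
    rw [M'.hh_mul, M'.cc_mul, e2, e3, mul_one]
  have e5 : g⁻¹ = (M.ww g)⁻¹ * (PushoutI.base φ (M.hh g))⁻¹ := by
    rw [← mul_inv_rev]
    exact congrArg _ (M.split g)
  rw [e4, e5, map_mul, map_inv]
  group

end QIG
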