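import Pool.Agent.W_a51130_h62.Word
import Pool.Agent.W_a51130_h62.WordQI

/-!
Quasi-isometries from maps with finite displacements (positive part, file C3).
-/

namespace QIG

open scoped Pointwise

/-- The set of elements with finitely many right displacements is everything. -/
theorem c3_finite {K K' : Type} [Group K] [Group K'] (F : K → K') (S : Set K)
    (hS : Subgroup.closure S = ⊤)
    (h1 : ∀ s ∈ S, {x | ∃ g : K, x = F (s * g) * (F g)⁻¹}.Finite) (s : K) :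
    {x | ∃ g : K, x = F (s * g) * (F g)⁻¹}.Finite := by
  have hs : s ∈ Subgroup.closure S := by rw [hS]; exact Subgroup.mem_top s
  induction hs using Subgroup.closure_induction with
  | mem x hx => exact h1 x hx
  | one =>
    refine (Set.finite_singleton (1 : K')).subset ?_
    rintro x ⟨g, rfl⟩
    rw [one_mul, mul_inv_cancel]
    exact Set.mem_singleton _
  | mul a b _ _ ha hb =>
    refine (ha.mul hb).subset ?_
    rintro x ⟨g, rfl⟩
    refine Set.mem_mul.2 ⟨F (a * (b * g)) * (F (b * g))⁻¹, ⟨b * g, rfl⟩,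
      F (b * g) * (F g)⁻¹, ⟨g, rfl⟩, ?_⟩
    rw [mul_assoc a b g]
    group
  | inv a _ ha =>
    refine ha.inv.subset ?_
    rintro x ⟨g, rfl⟩
    refine Set.mem_inv.2 ⟨a⁻¹ * g, ?_⟩
    rw [mul_inv_cancel_left, mul_inv_rev, inv_inv]

/-- Coarse Lipschitz estimate. -/
theorem c3_lip {K K' : Type} [Group K] [Group K'] {T : Set K} {T' : Set K'} (hT : GSet T)
    (hT' : GSet T') (F : K → K')
    (hF : ∀ s : K, {x | ∃ g : K, x = F (s * g) * (F g)⁻¹}.Finite) :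
    ∃ N : ℕ, ∀ a b : K, wl T' (F a * (F b)⁻¹) ≤ N * wl T (a * b⁻¹) := by
  obtain ⟨N, hN⟩ := finite_bdd T' (hT.fin.biUnion fun s _ => hF s)
  refine ⟨N, ?_⟩
  have key : ∀ (n : ℕ) (u : K), u ∈ T ^ n → ∀ b : K, wl T' (F (u * b) * (F b)⁻¹) ≤ N * n := by
    intro n
    induction n with
    | zero =>
      intro u hu b
      rw [pow_zero, Set.mem_one] at hu
      rw [hu, one_mul, mul_inv_cancel, wl_one]
      exact Nat.zero_le _
    | succ n ih =>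
      intro u hu b
      rw [pow_succ] at hu
      obtain ⟨v, hv, s, hs, rfl⟩ := Set.mem_mul.1 hu
      have e1 : F (v * s * b) * (F b)⁻¹ =
          (F (v * (s * b)) * (F (s * b))⁻¹) * (F (s * b) * (F b)⁻¹) := by
        rw [mul_assoc v s b]
        group
      rw [e1]
      refine (wl_mul_le hT' _ _).trans ?_
      have h2 := ih v hv (s * b)
      have h3 : wl T' (F (s * b) * (F b)⁻¹) ≤ N :=
        hN _ (Set.mem_biUnion hs ⟨b, rfl⟩)
      rw [mul_add, mul_one]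
      omega
  intro a b
  have h4 := key (wl T (a * b⁻¹)) (a * b⁻¹) ((mem_pow_iff hT _ _).2 le_rfl) b
  rwa [inv_mul_cancel_right] at h4

/-- A map with finitely many right displacements for every element of a generating set is coarsely Lipschitz; two
such maps which are coarsely inverse to each other give a quasi-isometry.

PROOF.  The set of `s` for which `{F (s g) (F g)⁻¹}` is finite is a subgroup (product: `K_s * K_{s'}`; inverse:
`K_s⁻¹`), so it is everything.  Take finite generating sets `T`, `T'` (`Group.fg_iff`).  With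
`K ≥ wordLen T' x` for all displacements `x` of elements of `T` and their inverses one gets
`wordLen T' (F a * (F b)⁻¹) ≤ K * wordLen T (a * b⁻¹)` (induction on the length).  The quasi-isometry is
`f x = (F x⁻¹)⁻¹`, so that `(f x)⁻¹ * f y = F x⁻¹ * (F y⁻¹)⁻¹` and `x⁻¹ * y = x⁻¹ * (y⁻¹)⁻¹`.  Lower bound:
`a b⁻¹ = (F' F a a⁻¹)⁻¹ (F' F a) (F' F b)⁻¹ (F' F b b⁻¹)`.  The lemmas on `wl`, `GSet` of `Word.lean`, `WordQI.lean`
(`exists_gset_of_closure`, ...) may be used. -/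
theorem quasiIsom_of_maps {K K' : Type} [Group K] [Group K'] (hK : Group.FG K)
    (hK' : Group.FG K') (F : K → K') (F' : K' → K) (S : Set K) (S' : Set K')
    (hS : Subgroup.closure S = ⊤) (hS' : Subgroup.closure S' = ⊤)
    (h1 : ∀ s ∈ S, {x | ∃ g : K, x = F (s * g) * (F g)⁻¹}.Finite)
    (h2 : ∀ s ∈ S', {x | ∃ g : K', x = F' (s * g) * (F' g)⁻¹}.Finite)
    (h3 : {x | ∃ g : K, x = F' (F g) * g⁻¹}.Finite)
    (h4 : {x | ∃ g : K', x = F (F' g) * g⁻¹}.Finite) : QuasiIsom K K' := by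
  obtain ⟨A, hcA, hA⟩ := Group.fg_iff.1 hK
  obtain ⟨A', hcA', hA'⟩ := Group.fg_iff.1 hK'
  obtain ⟨T, hT, hTl⟩ := exists_gset_of_closure hA hcA
  obtain ⟨T', hT', hTl'⟩ := exists_gset_of_closure hA' hcA'
  obtain ⟨N, hN⟩ := c3_lip hT hT' F (c3_finite F S hS h1)
  obtain ⟨N', hN'⟩ := c3_lip hT' hT F' (c3_finite F' S' hS' h2)
  obtain ⟨M, hM⟩ := finite_bdd T h3
  obtain ⟨M', hM'⟩ := finite_bdd T' h4
  have hup : ∀ x y : K, wl T' (((F x⁻¹)⁻¹)⁻¹ * (F y⁻¹)⁻¹) ≤ N * wl T (x⁻¹ * y) := by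
    intro x y
    have h5 := hN x⁻¹ y⁻¹
    rwa [inv_inv] at h5 ⊢
  have hlow : ∀ x y : K, wl T (x⁻¹ * y) ≤
      N' * wl T' (((F x⁻¹)⁻¹)⁻¹ * (F y⁻¹)⁻¹) + 2 * M := by
    intro x y
    have e1 : x⁻¹ * y = (F' (F x⁻¹) * (x⁻¹)⁻¹)⁻¹ * (F' (F x⁻¹) * (F' (F y⁻¹))⁻¹) *
        (F' (F y⁻¹) * (y⁻¹)⁻¹) := by
      group
    have h5 := hN' (F x⁻¹) (F y⁻¹)
    have h6 := hM _ ⟨x⁻¹, rfl⟩
    have h7 := hM _ ⟨y⁻¹, rfl⟩
    have h8 := wl_inv hT (F' (F x⁻¹) * (x⁻¹)⁻¹)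
    have h9 := wl_mul_le hT ((F' (F x⁻¹) * (x⁻¹)⁻¹)⁻¹ * (F' (F x⁻¹) * (F' (F y⁻¹))⁻¹))
      (F' (F y⁻¹) * (y⁻¹)⁻¹)
    have h10 := wl_mul_le hT (F' (F x⁻¹) * (x⁻¹)⁻¹)⁻¹ (F' (F x⁻¹) * (F' (F y⁻¹))⁻¹)
    rw [← e1] at h9
    rw [inv_inv (F x⁻¹)]
    omega
  have hsurj : ∀ z : K', ∃ x : K, wl T' (z⁻¹ * (F x⁻¹)⁻¹) ≤ M' := by
    intro z
    refine ⟨(F' z⁻¹)⁻¹, ?_⟩
    have h5 := hM' _ ⟨z⁻¹, rfl⟩
    have h6 := wl_inv hT' (F (F' z⁻¹) * (z⁻¹)⁻¹)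
    have e1 : (F (F' z⁻¹) * (z⁻¹)⁻¹)⁻¹ = z⁻¹ * (F ((F' z⁻¹)⁻¹)⁻¹)⁻¹ := by
      rw [mul_inv_rev, inv_inv, inv_inv]
    rw [e1] at h6
    omega
  refine ⟨A, A', hA, hcA, hA', hcA', fun x => (F x⁻¹)⁻¹, ((N + N' + 2 * M + M' : ℕ) : ℝ),
    ?_, ?_, ?_⟩
  · intro x y
    rw [hTl, hTl']
    have h5 : wl T' (((F x⁻¹)⁻¹)⁻¹ * (F y⁻¹)⁻¹) ≤
        (N + N' + 2 * M + M') * wl T (x⁻¹ * y) + (N + N' + 2 * M + M') := by
      refine (hup x y).trans ?_
      refine (Nat.mul_le_mul_right _ ?_).trans (Nat.le_add_right _ _)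
      omega
    exact_mod_cast h5
  · intro x y
    rw [hTl, hTl']
    have h5 : wl T (x⁻¹ * y) ≤
        (N + N' + 2 * M + M') * wl T' (((F x⁻¹)⁻¹)⁻¹ * (F y⁻¹)⁻¹) +
          (N + N' + 2 * M + M') := by
      refine (hlow x y).trans ?_
      refine Nat.add_le_add (Nat.mul_le_mul_right _ ?_) ?_ <;> omega
    exact_mod_cast h5
  · intro z
    obtain ⟨x, hx⟩ := hsurj z
    refine ⟨x, ?_⟩
    rw [hTl']
    have h5 : wl T' (z⁻¹ * (F x⁻¹)⁻¹) ≤ N + N' + 2 * M + M' := by omega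
    exact_mod_cast h5

end QIG
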