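import Pool.Agent.W_a51130_h62.Pos.C2
import Pool.Agent.W_a51130_h62.Pos.C3

/-!
Assembly (positive part, file C4).
-/

namespace QIG

open Monoid

variable {ι : Type} {G G' : ι → Type} [∀ i, Group (G i)] [∀ i, Group (G' i)] {H H' : Type}
  [Group H] [Group H'] {φ : ∀ i, H →* G i} {φ' : ∀ i, H' →* G' i}

/-- The pushout is generated by generating sets of the factors. -/
theorem c4_closure [Nonempty ι] (T : ∀ i, Set (G i)) (hT : ∀ i, Subgroup.closure (T i) = ⊤) :
    Subgroup.closure {x : PushoutI φ | ∃ i, ∃ g ∈ T i, x = PushoutI.of i g} = ⊤ := by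
  have hof : ∀ (i : ι) (g : G i), (PushoutI.of i g : PushoutI φ) ∈
      Subgroup.closure {x : PushoutI φ | ∃ i, ∃ g ∈ T i, x = PushoutI.of i g} := by
    intro i g
    have h : (⊤ : Subgroup (G i)) ≤ (Subgroup.closure
        {x : PushoutI φ | ∃ i, ∃ g ∈ T i, x = PushoutI.of i g}).comap (PushoutI.of i) := by
      rw [← hT i, Subgroup.closure_le]
      intro g hg
      exact Subgroup.subset_closure ⟨i, g, hg, rfl⟩
    exact h (Subgroup.mem_top g)
  rw [eq_top_iff]
  intro x _
  induction x using PushoutI.induction_on with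
  | of i g => exact hof i g
  | base h =>
    obtain ⟨i⟩ := ‹Nonempty ι›
    rw [← PushoutI.of_apply_eq_base φ i]
    exact hof i _
  | mul x y hx hy => exact mul_mem (hx trivial) (hy trivial)

/-- Finite generation of a pushout of finitely many finitely generated groups. -/
theorem c4_fg [Finite ι] [Nonempty ι] (hG : ∀ i, Group.FG (G i)) : Group.FG (PushoutI φ) := by
  have h : ∀ i, ∃ T : Set (G i), Subgroup.closure T = ⊤ ∧ T.Finite := fun i =>
    Group.fg_iff.mp (hG i)
  choose T hT hTf using h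
  refine Group.fg_iff.mpr ⟨_, c4_closure (φ := φ) T hT, ?_⟩
  have e : {x : PushoutI φ | ∃ i, ∃ g ∈ T i, x = PushoutI.of i g} =
      ⋃ i, (fun g : G i => (PushoutI.of i g : PushoutI φ)) '' T i := by
    ext x
    simp only [Set.mem_ofPred_eq, Set.mem_iUnion, Set.mem_image]
    constructor
    · rintro ⟨i, g, hg, rfl⟩
      exact ⟨i, g, hg, rfl⟩
    · rintro ⟨i, g, hg, rfl⟩
      exact ⟨i, g, hg, rfl⟩
  rw [e]
  exact Set.finite_iUnion fun i => (hTf i).image _

/-- ASSEMBLY: `exists_amalStr`, `exists_map`, `lip`, `comp` in both directions, `quasiIsom_of_maps` with the union of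
the ranges of the `of i` as generating sets (`PushoutI` is generated by the factors; finite generation:
`Group.FG` of the factors and `ι` finite, see `glue_fg` in `Main.lean` or use
`Monoid.PushoutI.induction_on`/closure of the union of the images of finite generating sets; if `ι` is empty the
base must be treated: assume `Nonempty ι`). -/
theorem CDat.quasiIsom [DecidableEq ι] [Finite ι] [Nonempty ι] (D : CDat φ φ') (D' : CDat φ' φ)
    (hφ : ∀ i, Function.Injective (φ i)) (hφ' : ∀ i, Function.Injective (φ' i))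
    (hG : ∀ i, Group.FG (G i)) (hG' : ∀ i, Group.FG (G' i))
    (h1 : ∀ i g, D'.tl i (D.τ i (D.tl i g)) = D.τ i (D.tl i g))
    (h2 : ∀ i g, D'.τ i (D.τ i (D.tl i g)) = D.tl i g)
    (h1' : ∀ i g, D.tl i (D'.τ i (D'.tl i g)) = D'.τ i (D'.tl i g))
    (h2' : ∀ i g, D.τ i (D'.τ i (D'.tl i g)) = D'.tl i g)
    (hf : {x | ∃ l : H, x = D'.A (D.A l) * l⁻¹}.Finite)
    (hf' : {x | ∃ l : H', x = D.A (D'.A l) * l⁻¹}.Finite)
    (hl : ∀ i (s : G i), {x | ∃ g : G i, x = D.loc i (s * g) * (D.loc i g)⁻¹}.Finite)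
    (hl' : ∀ i (s : G' i), {x | ∃ g : G' i, x = D'.loc i (s * g) * (D'.loc i g)⁻¹}.Finite) :
    QuasiIsom (PushoutI φ) (PushoutI φ') := by
  obtain ⟨S⟩ := exists_amalStr φ hφ
  obtain ⟨S'⟩ := exists_amalStr φ' hφ'
  obtain ⟨M⟩ := D.exists_map hφ S
  obtain ⟨M'⟩ := D'.exists_map hφ' S'
  refine quasiIsom_of_maps (c4_fg hG) (c4_fg hG') M.F M'.F
    {x : PushoutI φ | ∃ i, ∃ g ∈ (Set.univ : Set (G i)), x = PushoutI.of i g}
    {x : PushoutI φ' | ∃ i, ∃ g ∈ (Set.univ : Set (G' i)), x = PushoutI.of i g}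
    (c4_closure (fun i => Set.univ) (fun i => Subgroup.closure_univ))
    (c4_closure (fun i => Set.univ) (fun i => Subgroup.closure_univ)) ?_ ?_
    (M.comp M' h1 h2 hf) (M'.comp M h1' h2' hf')
  · rintro _ ⟨i, s, -, rfl⟩
    exact M.lip i s (hl i s)
  · rintro _ ⟨i, s, -, rfl⟩
    exact M'.lip i s (hl' i s)

end QIG
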