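import Pool.Agent.W_a51130_h62.Pos.C

/-!
Peripheral pairs and gluings of products with free abelian groups (positive part, file D).
-/

namespace QIG

open Monoid

/-- A group `Γ` with an abelian subgroup `j L`, `L` embedded as a lattice in `R^m` by `vec`, such that every linear
functional extends to a coarsely Lipschitz function on `Γ`. -/
structure PerPair (Γ L : Type) [Group Γ] [Group L] (m : ℕ) where
  j : L →* Γ
  j_inj : Function.Injective j
  comm : ∀ a b : L, a * b = b * a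
  vec : L → E m
  vec_mul : ∀ a b, vec (a * b) = vec a + vec b
  vec_inj : Function.Injective vec
  fin : ∀ r : ℝ, {a | ‖vec a‖ ≤ r}.Finite
  basis : ∃ b : Module.Basis (Fin m) ℝ (E m), ∀ v, (∃ a, vec a = v) ↔ ∃ k : Fin m → ℤ,
    v = ∑ i, (k i : ℝ) • b i
  fg : Group.FG Γ
  rho : ∀ ℓ : E m →ₗ[ℝ] ℝ, ∃ ρ : Γ → ℝ,
    (∀ h : Γ, ∃ C : ℝ, ∀ g : Γ, |ρ (h * g) - ρ g| ≤ C) ∧
    ∃ C : ℝ, ∀ (g : Γ) (a : L), |ρ (j a * g) - ρ g - ℓ (vec a)| ≤ C

/-- `R^m × R^d`. -/
abbrev EF (m d : ℕ) : Type := E m × (Fin d → ℝ)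

/-- `Z^d`, multiplicative. -/
abbrev ZM (d : ℕ) : Type := Multiplicative (Fin d → ℤ)

variable {Γ L : Type} [Group Γ] [Group L] {m : ℕ}

/-- The vector of an element of the wall group. -/
def PerPair.wv (D : PerPair Γ L m) (d : ℕ) (h : L × ZM d) : EF m d :=
  (D.vec h.1, fun k => (Multiplicative.toAdd h.2 k : ℝ))

/-- The inclusion of the wall group. -/
def PerPair.jj (D : PerPair Γ L m) (d : ℕ) : L × ZM d →* Γ × ZM d :=
  D.j.prodMap (MonoidHom.id (ZM d))

theorem PerPair.wv_mul (D : PerPair Γ L m) (d : ℕ) (h k : L × ZM d) :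
    D.wv d (h * k) = D.wv d h + D.wv d k := by
  refine Prod.ext (D.vec_mul h.1 k.1) ?_
  funext i
  show ((Multiplicative.toAdd (h.2 * k.2) i : ℤ) : ℝ) =
    ((Multiplicative.toAdd h.2 i : ℤ) : ℝ) + ((Multiplicative.toAdd k.2 i : ℤ) : ℝ)
  rw [toAdd_mul, Pi.add_apply, Int.cast_add]

theorem PerPair.wv_one (D : PerPair Γ L m) (d : ℕ) : D.wv d 1 = 0 := by
  have h := D.wv_mul d 1 1
  rw [mul_one] at h
  exact left_eq_add.1 h

theorem PerPair.wv_inv (D : PerPair Γ L m) (d : ℕ) (h : L × ZM d) : D.wv d h⁻¹ = - D.wv d h := by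
  have h1 := D.wv_mul d h⁻¹ h
  rw [inv_mul_cancel, D.wv_one] at h1
  exact eq_neg_of_add_eq_zero_left h1.symm

theorem PerPair.wv_inj (D : PerPair Γ L m) (d : ℕ) : Function.Injective (D.wv d) := by
  intro h k hk
  have h1 : D.vec h.1 = D.vec k.1 := congrArg Prod.fst hk
  have h2 : (fun i => ((Multiplicative.toAdd h.2 i : ℤ) : ℝ)) =
      fun i => ((Multiplicative.toAdd k.2 i : ℤ) : ℝ) := congrArg Prod.snd hk
  refine Prod.ext (D.vec_inj h1) ?_
  apply Multiplicative.toAdd.injective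
  funext i
  exact Int.cast_injective (congrFun h2 i)

theorem PerPair.wv_fin (D : PerPair Γ L m) (d : ℕ) (r : ℝ) : {h | ‖D.wv d h‖ ≤ r}.Finite := by
  have h1 := D.fin r
  have h2 : ((fun z : ZM d => Multiplicative.toAdd z) ⁻¹'
      (Set.Icc (fun _ => -⌈r⌉) (fun _ => ⌈r⌉))).Finite :=
    Set.Finite.preimage (Multiplicative.toAdd.injective.injOn) (Set.finite_Icc _ _)
  refine (h1.prod h2).subset ?_
  rintro h hh
  have hh' : ‖D.wv d h‖ ≤ r := hh
  have h3 : ‖D.vec h.1‖ ≤ r := (norm_fst_le (D.wv d h)).trans hh'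
  have h4 : ‖(D.wv d h).2‖ ≤ r := (norm_snd_le (D.wv d h)).trans hh'
  refine ⟨h3, ?_⟩
  have h5 : ∀ i, |((Multiplicative.toAdd h.2 i : ℤ) : ℝ)| ≤ r := fun i =>
    (norm_le_pi_norm (D.wv d h).2 i).trans h4
  refine ⟨fun i => ?_, fun i => ?_⟩
  · have h6 := (abs_le.1 (h5 i)).1
    have h7 : ((-⌈r⌉ : ℤ) : ℝ) ≤ ((Multiplicative.toAdd h.2 i : ℤ) : ℝ) := by
      push_cast
      linarith [Int.le_ceil r]
    exact_mod_cast h7
  · have h6 := (abs_le.1 (h5 i)).2
    have h7 : ((Multiplicative.toAdd h.2 i : ℤ) : ℝ) ≤ ((⌈r⌉ : ℤ) : ℝ) := by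
      linarith [Int.le_ceil r]
    exact_mod_cast h7

/-- A basis of the wall lattice: `b.prod (Pi.basisFun)`. -/
theorem PerPair.wv_basis (D : PerPair Γ L m) (d : ℕ) :
    ∃ b : Module.Basis (Fin m ⊕ Fin d) ℝ (EF m d), ∀ v, (∃ h, D.wv d h = v) ↔
      ∃ k : Fin m ⊕ Fin d → ℤ, v = ∑ i, (k i : ℝ) • b i := by
  obtain ⟨b, hb⟩ := D.basis
  have key : ∀ k : Fin m ⊕ Fin d → ℤ,
      ∑ i, (k i : ℝ) • (b.prod (Pi.basisFun ℝ (Fin d))) i =
        ((∑ i, (k (Sum.inl i) : ℝ) • b i, fun i => (k (Sum.inr i) : ℝ)) : EF m d) := by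
    intro k
    rw [Fintype.sum_sum_type]
    have e1 : ∑ i, (k (Sum.inl i) : ℝ) • (b.prod (Pi.basisFun ℝ (Fin d))) (Sum.inl i) =
        ((∑ i, (k (Sum.inl i) : ℝ) • b i, 0) : EF m d) := by
      refine Prod.ext ?_ ?_
      · rw [Prod.fst_sum]
        simp
      · rw [Prod.snd_sum]
        simp
    have e2 : ∑ i, (k (Sum.inr i) : ℝ) • (b.prod (Pi.basisFun ℝ (Fin d))) (Sum.inr i) =
        ((0, fun i => (k (Sum.inr i) : ℝ)) : EF m d) := by
      refine Prod.ext ?_ ?_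
      · rw [Prod.fst_sum]
        simp
      · rw [Prod.snd_sum]
        funext j
        simp [Finset.sum_apply, Pi.single_apply]
    rw [e1, e2]
    refine Prod.ext ?_ ?_ <;> simp
  refine ⟨b.prod (Pi.basisFun ℝ (Fin d)), fun v => ⟨?_, ?_⟩⟩
  · rintro ⟨h, rfl⟩
    obtain ⟨k, hk⟩ := (hb (D.vec h.1)).1 ⟨h.1, rfl⟩
    refine ⟨Sum.elim k (fun i => Multiplicative.toAdd h.2 i), ?_⟩
    rw [key]
    exact Prod.ext hk rfl
  · rintro ⟨k, rfl⟩
    rw [key]
    obtain ⟨a, ha⟩ := (hb (∑ i, (k (Sum.inl i) : ℝ) • b i)).2 ⟨fun i => k (Sum.inl i), rfl⟩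
    exact ⟨(a, Multiplicative.ofAdd fun i => k (Sum.inr i)), Prod.ext ha rfl⟩

/-- Right transversal: choose representatives of the right cosets of `j L`, the class of `1` being represented by
`1`. -/
theorem PerPair.exists_split (D : PerPair Γ L m) : ∃ (lam : Γ → L) (t : Γ → Γ),
    (∀ x, x = D.j (lam x) * t x) ∧ (∀ a x, t (D.j a * x) = t x) ∧ t 1 = 1 ∧
    ∀ a x, lam (D.j a * x) = a * lam x := by
  classical
  obtain ⟨t, ht⟩ : ∃ t : Γ → Γ, t = fun x => if x ∈ D.j.range then 1 else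
      (Quotient.mk (QuotientGroup.rightRel D.j.range) x).out := ⟨_, rfl⟩
  have ht1 : ∀ x, ∃ a : L, x = D.j a * t x := by
    intro x
    rw [ht]
    by_cases hx : x ∈ D.j.range
    · obtain ⟨a, ha⟩ := hx
      exact ⟨a, by simp [← ha]⟩
    · simp only [if_neg hx]
      have h1 : (QuotientGroup.rightRel D.j.range)
          (Quotient.mk (QuotientGroup.rightRel D.j.range) x).out x := Quotient.mk_out x
      rw [QuotientGroup.rightRel_apply] at h1
      obtain ⟨a, ha⟩ := h1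
      exact ⟨a, by rw [ha, inv_mul_cancel_right]⟩
  have ht2 : ∀ a x, t (D.j a * x) = t x := by
    intro a x
    have hiff : D.j a * x ∈ D.j.range ↔ x ∈ D.j.range :=
      Subgroup.mul_mem_cancel_left _ ⟨a, rfl⟩
    have hq : Quotient.mk (QuotientGroup.rightRel D.j.range) (D.j a * x) =
        Quotient.mk (QuotientGroup.rightRel D.j.range) x := by
      apply Quotient.sound
      show (QuotientGroup.rightRel D.j.range) (D.j a * x) x
      rw [QuotientGroup.rightRel_apply]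
      refine ⟨a⁻¹, ?_⟩
      rw [map_inv]
      group
    rw [ht]
    simp only [hiff, hq]
  have ht3 : t 1 = 1 := by
    rw [ht]
    simp only [if_pos (one_mem D.j.range)]
  choose lam hlam using ht1
  refine ⟨lam, t, hlam, ht2, ht3, fun a x => ?_⟩
  have h1 := hlam (D.j a * x)
  have h2 := hlam x
  rw [ht2] at h1
  apply D.j_inj
  rw [map_mul]
  have h3 : D.j (lam (D.j a * x)) * t x = D.j a * D.j (lam x) * t x := by
    rw [← h1, mul_assoc, ← h2]
  exact mul_right_cancel h3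

end QIG
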