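import Pool.Agent.W_a51130_h62.Pos.D

/-!
The local lemma (positive part, file D2).
-/

namespace QIG

open Monoid

variable {Γ L : Type} [Group Γ] [Group L] {m : ℕ}

theorem PerPair.d2_vec_inv_mul (D : PerPair Γ L m) (a b : L) :
    D.vec (a⁻¹ * b) = D.vec b - D.vec a := by
  have h := D.vec_mul a (a⁻¹ * b)
  rw [mul_inv_cancel_left] at h
  rw [h]
  abel

theorem PerPair.d2_vec_one (D : PerPair Γ L m) : D.vec 1 = 0 := by
  have h := D.vec_mul 1 1
  rw [one_mul] at h
  exact left_eq_add.1 h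

/-- integer vectors of bounded norm -/
theorem PerPair.d2_int_fin (D : PerPair Γ L m) (d : ℕ) (r : ℝ) :
    {v : ZM d | ‖(fun k => (Multiplicative.toAdd v k : ℝ))‖ ≤ r}.Finite := by
  have h := (D.wv_fin d r).image Prod.snd
  refine h.subset ?_
  intro v hv
  refine ⟨(1, v), ?_, rfl⟩
  change ‖D.wv d (1, v)‖ ≤ r
  have hv' : ‖(fun k => (Multiplicative.toAdd v k : ℝ))‖ ≤ r := hv
  have hr : 0 ≤ r := (norm_nonneg _).trans hv'
  unfold PerPair.wv
  rw [Prod.norm_def]
  simp only [d2_vec_one, norm_zero]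
  exact max_le hr hv'

/-- LOCAL LEMMA.  Let `Q : L × Z^d → L × Z^d` be at bounded distance from a linear map `N` of `R^m × R^d` which
induces the identity on `R^m`, `N (v, c) = (v, L v + M c)`.  Let `κ : Γ → R^d` be coarsely Lipschitz and
`κ x = L (vec (lam x)) + M (- σ (t x)) + σ' (t x)` up to a bounded error.  Then
`f (x, c) = Q (lam x, c - σ (t x)) · (t x, σ' (t x))` has finitely many displacements `f (s g) (f g)⁻¹` for every `s`.

PROOF.  `g = (x, c)`, `s = (γ, e)`.  First components: `Q (lam x, _) = (lam x · ε, _)` with `vec ε` bounded, i.e. `ε` in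
a finite set (`D.fin`), the same for `γ x` with `ε'`; since `L` is commutative the first component of `f (s g) (f g)⁻¹` is
`j ε' j (lam (γ x)) t (γ x) (t x)⁻¹ j (lam x)⁻¹ (j ε)⁻¹ = j ε' γ (j ε)⁻¹`.  Second components: the second component of
`f g` is, up to a bounded error, `L (vec (lam x)) + M (c - σ (t x)) + σ' (t x) = M c + κ x`, the one of `f (s g)` is
`M c + M e + κ (γ x)`; the difference is an integer vector, bounded. -/
theorem PerPair.local_fin (D : PerPair Γ L m) (d : ℕ) (lam : Γ → L) (t : Γ → Γ)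
    (hlt : ∀ x, x = D.j (lam x) * t x) (N : EF m d →ₗ[ℝ] EF m d) (hN : ∀ z, (N z).1 = z.1)
    (Q : L × ZM d → L × ZM d) (C : ℝ) (hQ : ∀ h, ‖D.wv d (Q h) - N (D.wv d h)‖ ≤ C)
    (σ σ' : Γ → (Fin d → ℤ)) (κ : Γ → (Fin d → ℝ))
    (hκ : ∀ s, ∃ C, ∀ x, ‖κ (s * x) - κ x‖ ≤ C)
    (hκ' : ∀ x, ‖(N (D.vec (lam x), fun k => - (σ (t x) k : ℝ))).2 + (fun k => (σ' (t x) k : ℝ)) -
      κ x‖ ≤ C) (s : Γ × ZM d) :
    {y | ∃ g : Γ × ZM d, y =
      (D.jj d (Q (lam (s * g).1, (s * g).2 * (Multiplicative.ofAdd (σ (t (s * g).1)))⁻¹)) *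
          (t (s * g).1, Multiplicative.ofAdd (σ' (t (s * g).1)))) *
        (D.jj d (Q (lam g.1, g.2 * (Multiplicative.ofAdd (σ (t g.1)))⁻¹)) *
          (t g.1, Multiplicative.ofAdd (σ' (t g.1))))⁻¹}.Finite := by
  -- abbreviations
  let q : Γ × ZM d → L × ZM d := fun g => Q (lam g.1, g.2 * (Multiplicative.ofAdd (σ (t g.1)))⁻¹)
  have hq : ∀ g, q g = Q (lam g.1, g.2 * (Multiplicative.ofAdd (σ (t g.1)))⁻¹) := fun _ => rfl
  let R : (Fin d → ℝ) := (N ((0 : E m), fun k => (Multiplicative.toAdd s.2 k : ℝ))).2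
  obtain ⟨Cs, hCs⟩ := hκ s.1
  -- first component
  have hfirst : ∀ g : Γ × ZM d, ‖D.vec ((lam g.1)⁻¹ * (q g).1)‖ ≤ C := by
    intro g
    rw [D.d2_vec_inv_mul]
    have h1 := hQ (lam g.1, g.2 * (Multiplicative.ofAdd (σ (t g.1)))⁻¹)
    rw [← hq] at h1
    have h2 := (norm_fst_le _).trans h1
    rw [Prod.fst_sub, hN] at h2
    exact h2
  -- second component
  let F : Γ × ZM d → (Fin d → ℝ) := fun g =>
    (D.wv d (q g)).2 + (fun k => (σ' (t g.1) k : ℝ))
  have hsecond : ∀ g : Γ × ZM d, ‖F g - (κ g.1 +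
      (N ((0 : E m), fun k => (Multiplicative.toAdd g.2 k : ℝ))).2)‖ ≤ C + C := by
    intro g
    have h1 := hQ (lam g.1, g.2 * (Multiplicative.ofAdd (σ (t g.1)))⁻¹)
    rw [← hq] at h1
    have h2 := (norm_snd_le _).trans h1
    rw [Prod.snd_sub] at h2
    have h3 : D.wv d (lam g.1, g.2 * (Multiplicative.ofAdd (σ (t g.1)))⁻¹) =
        ((D.vec (lam g.1), fun k => - (σ (t g.1) k : ℝ)) : EF m d) +
          ((0 : E m), fun k => (Multiplicative.toAdd g.2 k : ℝ)) := by
      apply Prod.ext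
      · simp [PerPair.wv]
      · funext k
        simp [PerPair.wv]
        ring
    rw [h3, map_add, Prod.snd_add] at h2
    have h4 := hκ' g.1
    have h5 : F g - (κ g.1 + (N ((0 : E m), fun k => (Multiplicative.toAdd g.2 k : ℝ))).2) =
        ((D.wv d (q g)).2 - ((N (D.vec (lam g.1), fun k => - (σ (t g.1) k : ℝ))).2 +
          (N ((0 : E m), fun k => (Multiplicative.toAdd g.2 k : ℝ))).2)) +
        ((N (D.vec (lam g.1), fun k => - (σ (t g.1) k : ℝ))).2 +
          (fun k => (σ' (t g.1) k : ℝ)) - κ g.1) := by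
      simp only [F]
      abel
    rw [h5]
    exact (norm_add_le _ _).trans (add_le_add h2 h4)
  have hdiff : ∀ g : Γ × ZM d, ‖F (s * g) - F g‖ ≤ (C + C) + (C + C) + Cs + ‖R‖ := by
    intro g
    have h1 := hsecond (s * g)
    have h2 := hsecond g
    have h3 := hCs g.1
    have h4 : (N ((0 : E m), fun k => (Multiplicative.toAdd (s * g).2 k : ℝ))).2 =
        R + (N ((0 : E m), fun k => (Multiplicative.toAdd g.2 k : ℝ))).2 := by
      have h5 : ((0 : E m), fun k => (Multiplicative.toAdd (s * g).2 k : ℝ)) =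
          (((0 : E m), fun k => (Multiplicative.toAdd s.2 k : ℝ)) : EF m d) +
            ((0 : E m), fun k => (Multiplicative.toAdd g.2 k : ℝ)) := by
        apply Prod.ext
        · simp
        · funext k
          simp
      rw [h5, map_add, Prod.snd_add]
    rw [h4] at h1
    have h6 : F (s * g) - F g =
        (F (s * g) - (κ (s * g).1 + (R + (N ((0 : E m),
          fun k => (Multiplicative.toAdd g.2 k : ℝ))).2))) -
        (F g - (κ g.1 + (N ((0 : E m), fun k => (Multiplicative.toAdd g.2 k : ℝ))).2)) +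
        (κ (s * g).1 - κ g.1) + R := by
      abel
    rw [h6]
    refine (norm_add_le _ _).trans (add_le_add ?_ le_rfl)
    refine (norm_add_le _ _).trans (add_le_add ?_ h3)
    exact (norm_sub_le _ _).trans (add_le_add h1 h2)
  -- the finite set
  have hfin := ((Set.Finite.image2 (fun a b : L => D.j a * s.1 * (D.j b)⁻¹)
    (D.fin C) (D.fin C)).prod (D.d2_int_fin d ((C + C) + (C + C) + Cs + ‖R‖)))
  refine hfin.subset ?_
  rintro y ⟨g, rfl⟩
  rw [← hq g, ← hq (s * g)]
  refine ⟨?_, ?_⟩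
  · refine ⟨(lam (s * g).1)⁻¹ * (q (s * g)).1, hfirst (s * g), (lam g.1)⁻¹ * (q g).1, hfirst g, ?_⟩
    have h1 : ∀ g : Γ × ZM d, D.j (q g).1 * t g.1 = D.j ((lam g.1)⁻¹ * (q g).1) * g.1 := by
      intro g
      have h2 : (q g).1 = ((lam g.1)⁻¹ * (q g).1) * lam g.1 := by
        rw [D.comm ((lam g.1)⁻¹ * (q g).1) (lam g.1), mul_inv_cancel_left]
      conv_lhs => rw [h2]
      rw [map_mul, mul_assoc, ← hlt]
    change D.j ((lam (s * g).1)⁻¹ * (q (s * g)).1) * s.1 * (D.j ((lam g.1)⁻¹ * (q g).1))⁻¹ =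
      (D.j (q (s * g)).1 * t (s * g).1) * (D.j (q g).1 * t g.1)⁻¹
    rw [h1 g, h1 (s * g), mul_inv_rev, Prod.fst_mul]
    group
  · change ‖(fun k => (Multiplicative.toAdd (((q (s * g)).2 *
      Multiplicative.ofAdd (σ' (t (s * g).1))) *
        ((q g).2 * Multiplicative.ofAdd (σ' (t g.1)))⁻¹) k : ℝ))‖ ≤ _
    have h2 : (fun k => (Multiplicative.toAdd (((q (s * g)).2 *
      Multiplicative.ofAdd (σ' (t (s * g).1))) *
        ((q g).2 * Multiplicative.ofAdd (σ' (t g.1)))⁻¹) k : ℝ)) = F (s * g) - F g := by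
      funext k
      simp only [F, PerPair.wv, toAdd_mul, toAdd_inv, toAdd_ofAdd, Pi.add_apply, Pi.neg_apply,
        Pi.sub_apply]
      push_cast
      ring
    rw [h2]
    exact hdiff g

end QIG
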