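import Pool.Agent.W_a51130_h62.Short

/-!
MP_a51130_gt, positive part: notions of the final statement (besides those of `Defs.lean` and `Short.lean`).
-/

namespace QIG

open Monoid

variable {m : ℕ}

/-- `π₁` of the product of the truncated manifold with the torus `T^d`. -/
def Piece.TGrp (P : Piece m) (d : ℕ) : Type := P.Grp × Multiplicative (Fin d → ℤ)

noncomputable instance Piece.tgrpGroup (P : Piece m) (d : ℕ) : Group (P.TGrp d) :=
  (inferInstance : Group (P.Grp × Multiplicative (Fin d → ℤ)))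

/-- `π₁` of the boundary torus: cusp torus times `T^d`. -/
def Piece.TCusp (P : Piece m) (d : ℕ) : Type := P.Cusp × Multiplicative (Fin d → ℤ)

noncomputable instance Piece.tcuspGroup (P : Piece m) (d : ℕ) : Group (P.TCusp d) :=
  (inferInstance : Group (P.Cusp × Multiplicative (Fin d → ℤ)))

/-- The element `x` of the boundary torus group is in the fiber subgroup `π₁({*} × T^d)`. -/
def Piece.InFiber {P : Piece m} {d : ℕ} (x : P.TCusp d) : Prop := x.1 = 1

/-- The inclusion of the boundary torus group. -/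
noncomputable def Piece.tincl (P : Piece m) (d : ℕ) : P.TCusp d →* P.TGrp d :=
  P.incl.prodMap (MonoidHom.id (Multiplicative (Fin d → ℤ)))

/-- The two inclusions of the boundary torus group of the piece `0` defined by a gluing map `ψ`. -/
noncomputable def tgluing {m : Fin 2 → ℕ} (P : ∀ i, Piece (m i)) (d : Fin 2 → ℕ)
    (ψ : (P 0).TCusp (d 0) ≃* (P 1).TCusp (d 1)) : ∀ i : Fin 2, (P 0).TCusp (d 0) →* (P i).TGrp (d i)
  | 0 => (P 0).tincl (d 0)
  | 1 => ((P 1).tincl (d 1)).comp ψ.toMonoidHom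

/-- The fundamental group of the closed manifold obtained by gluing the pieces `N i × T^(d i)` along
their boundary tori by a diffeomorphism inducing `ψ`. -/
noncomputable def TAmalgam {m : Fin 2 → ℕ} (P : ∀ i, Piece (m i)) (d : Fin 2 → ℕ)
    (ψ : (P 0).TCusp (d 0) ≃* (P 1).TCusp (d 1)) : Type := PushoutI (tgluing P d ψ)

noncomputable instance tamalgamGroup {m : Fin 2 → ℕ} (P : ∀ i, Piece (m i)) (d : Fin 2 → ℕ)
    (ψ : (P 0).TCusp (d 0) ≃* (P 1).TCusp (d 1)) : Group (TAmalgam P d ψ) :=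
  (inferInstance : Group (PushoutI (tgluing P d ψ)))

/-- The fibers are transverse: the gluing is irreducible. -/
def Transverse {m : Fin 2 → ℕ} {P : ∀ i, Piece (m i)} {d : Fin 2 → ℕ}
    (ψ : (P 0).TCusp (d 0) ≃* (P 1).TCusp (d 1)) : Prop :=
  ∀ x, Piece.InFiber x → Piece.InFiber (ψ x) → x = 1

/-- `R^m × R^d`. -/
def EZ (m d : ℕ) : Type := E m × (Fin d → ℝ)

noncomputable instance EZ.grp (m d : ℕ) : AddCommGroup (EZ m d) :=
  (inferInstance : AddCommGroup (E m × (Fin d → ℝ)))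

noncomputable instance EZ.mod (m d : ℕ) : Module ℝ (EZ m d) :=
  (inferInstance : Module ℝ (E m × (Fin d → ℝ)))

/-- `z` is the vector of the element `x` of the boundary torus group. -/
def Piece.IsVec {P : Piece m} {d : ℕ} (x : P.TCusp d) (z : EZ m d) : Prop :=
  P.IsTr (P.incl x.1) z.1 ∧ ∀ k, z.2 k = (Multiplicative.toAdd x.2 k : ℝ)

/-- The linear automorphism `A` preserves the fiber direction `0 × R^d` and induces the identity on
the quotient `R^m`. -/
def Shears {m d : ℕ} (A : EZ m d ≃ₗ[ℝ] EZ m d) : Prop := ∀ z, (A z).1 = z.1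

/-- Up to linear automorphisms `A₀`, `A₁` preserving the fibers and inducing the identity on the base
spaces, the linear extensions `Ψ`, `Ψ'` of the gluing maps are the same: `Ψ' A₀ = A₁ Ψ`. -/
def FiberEquiv {m : Fin 2 → ℕ} {P : ∀ i, Piece (m i)} {d : Fin 2 → ℕ}
    (ψ ψ' : (P 0).TCusp (d 0) ≃* (P 1).TCusp (d 1)) : Prop :=
  ∃ (A₀ : EZ (m 0) (d 0) ≃ₗ[ℝ] EZ (m 0) (d 0)) (A₁ : EZ (m 1) (d 1) ≃ₗ[ℝ] EZ (m 1) (d 1))
    (Ψ Ψ' : EZ (m 0) (d 0) ≃ₗ[ℝ] EZ (m 1) (d 1)), Shears A₀ ∧ Shears A₁ ∧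
    (∀ x z, Piece.IsVec x z → Piece.IsVec (ψ x) (Ψ z)) ∧
    (∀ x z, Piece.IsVec x z → Piece.IsVec (ψ' x) (Ψ' z)) ∧ ∀ z, Ψ' (A₀ z) = A₁ (Ψ z)

end QIG
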