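import Pool.Agent.W_a51130_h62.Pos.D2

/-!
One side of the gluing (positive part, file E).

`side`: a wall group `H` with two identifications `e`, `e'` with `L × Z^d`, and maps `A, B : H → H` which in the
coordinates `e`, `e'` are at bounded distance from a linear automorphism `N` of `R^m × R^d` inducing the identity on
`R^m`, respectively from its inverse.  Then there are transversals and maps as needed for `CDat`.

PROOF.  `N (v, c) = (v, Lv + Mc)`.  Apply `D.rho` to the `d` functionals `v ↦ (N (v, 0)).2 k`; let `r : Γ → R^d` be the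
resulting function minus its value at `1`, and `ρ x k = ⌊r x k⌋` (`ρ 1 = 0`), `|ρ x k - r x k| ≤ 1`.  `lam, t` from
`exists_split`.
`hd (x, c) = e.symm (lam x, c)`, `tl (x, c) = (t x, 1)`, `τ (x, c) = (x, ρ x)`,
`hd' (x, c) = e'.symm (lam x, c - ρ (t x))`, `tl' (x, c) = (t x, ρ (t x))`, `τ' (x, c) = (x, 1)`.
(`t (t x) = t x`: `t x = D.j (lam x)⁻¹ * x`.)
The first finiteness is `local_fin` for `Q h = e' (A (e.symm h))`, `σ = 0`, `σ' = ρ`, `κ = r`: the condition `hκ'` is
`L (vec (lam x)) + ρ (t x) = r x` up to a bounded error, which is the second property of `rho` for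
`x = j (lam x) * t x`.
The second one is `local_fin` for `Q h = e (B (e'.symm h))`, `N.symm`, `σ = ρ`, `σ' = 0`,
`κ x = (N.symm (0, - r x)).2`: with `v = vec (lam x)`, `r x = r (t x) + L v + O(1)`, so
`(N.symm (v, - ρ (t x))).2 - (N.symm (0, - r x)).2 = (N.symm (v, r x - ρ (t x))).2 = (N.symm (v, L v + O(1))).2`, and
`N.symm (v, L v) = (v, 0)`.
-/

namespace QIG

open Monoid

variable {Γ L : Type} [Group Γ] [Group L] {m : ℕ}

/-- Everything needed on one side of the wall. -/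
structure SideDat (D : PerPair Γ L m) (d : ℕ) {H : Type} [Group H] (e e' : H ≃* L × ZM d)
    (A B : H → H) where
  hd : Γ × ZM d → H
  tl : Γ × ZM d → Γ × ZM d
  τ : Γ × ZM d → Γ × ZM d
  hd' : Γ × ZM d → H
  tl' : Γ × ZM d → Γ × ZM d
  τ' : Γ × ZM d → Γ × ZM d
  split : ∀ g, g = D.jj d (e (hd g)) * tl g
  tl_mul : ∀ l g, tl (D.jj d (e l) * g) = tl g
  tl_one : tl 1 = 1
  τ_one : τ 1 = 1
  split' : ∀ g, g = D.jj d (e' (hd' g)) * tl' g
  tl_mul' : ∀ l g, tl' (D.jj d (e' l) * g) = tl' g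
  tl_one' : tl' 1 = 1
  τ_one' : τ' 1 = 1
  h1 : ∀ g, tl' (τ (tl g)) = τ (tl g)
  h2 : ∀ g, τ' (τ (tl g)) = tl g
  h1' : ∀ g, tl (τ' (tl' g)) = τ' (tl' g)
  h2' : ∀ g, τ (τ' (tl' g)) = tl' g
  fin : ∀ s, {y | ∃ g, y = (D.jj d (e' (A (hd (s * g)))) * τ (tl (s * g))) *
    (D.jj d (e' (A (hd g))) * τ (tl g))⁻¹}.Finite
  fin' : ∀ s, {y | ∃ g, y = (D.jj d (e (B (hd' (s * g)))) * τ' (tl' (s * g))) *
    (D.jj d (e (B (hd' g))) * τ' (tl' g))⁻¹}.Finite

theorem posE_common {ι α : Type} [Fintype ι] (f : ι → α → ℝ) (h : ∀ k, ∃ C, ∀ a, f k a ≤ C) :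
    ∃ C : ℝ, 0 ≤ C ∧ ∀ k a, f k a ≤ C := by
  choose c hc using h
  refine ⟨∑ k, |c k|, Finset.sum_nonneg fun k _ => abs_nonneg _, fun k a => ?_⟩
  exact (hc k a).trans ((le_abs_self _).trans
    (Finset.single_le_sum (f := fun k => |c k|) (fun k _ => abs_nonneg _) (Finset.mem_univ k)))

/-- The function `r` and its integral part. -/
theorem PerPair.posE_rho (D : PerPair Γ L m) (d : ℕ) (N : EF m d →ₗ[ℝ] EF m d) :
    ∃ (r : Γ → (Fin d → ℝ)) (ρ : Γ → (Fin d → ℤ)), ρ 1 = 0 ∧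
      (∃ C : ℝ, 0 ≤ C ∧ ∀ (x : Γ) (a : L), ‖(N (D.vec a, 0)).2 + (fun k => (ρ x k : ℝ)) -
        r (D.j a * x)‖ ≤ C) ∧
      ∀ s, ∃ C : ℝ, 0 ≤ C ∧ ∀ x, ‖r (s * x) - r x‖ ≤ C := by
  let ℓ : Fin d → (E m →ₗ[ℝ] ℝ) := fun k =>
    (LinearMap.proj k).comp ((LinearMap.snd ℝ (E m) (Fin d → ℝ)).comp
      (N.comp (LinearMap.inl ℝ (E m) (Fin d → ℝ))))
  have hℓ : ∀ k v, ℓ k v = (N (v, 0)).2 k := fun k v => rfl
  choose q h1 h2 using fun k => D.rho (ℓ k)
  refine ⟨fun x k => q k x - q k 1, fun x k => ⌊q k x - q k 1⌋, ?_, ?_, ?_⟩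
  · funext k
    simp
  · obtain ⟨C, hC, hC'⟩ := posE_common (ι := Fin d) (α := Γ × L)
      (fun k z => |q k (D.j z.2 * z.1) - q k z.1 - ℓ k (D.vec z.2)|)
      (fun k => by
        obtain ⟨C, hC⟩ := h2 k
        exact ⟨C, fun z => hC z.1 z.2⟩)
    refine ⟨C + 1, by linarith, fun x a => ?_⟩
    rw [pi_norm_le_iff_of_nonneg (by linarith)]
    intro k
    have e1 := hC' k (x, a)
    simp only [hℓ] at e1
    have e2 := Int.floor_le (q k x - q k 1)
    have e3 := (Int.lt_floor_add_one (q k x - q k 1)).le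
    rw [abs_le] at e1
    rw [Real.norm_eq_abs, abs_le]
    simp only [Pi.sub_apply, Pi.add_apply]
    constructor <;> linarith [e1.1, e1.2]
  · intro s
    obtain ⟨C, hC, hC'⟩ := posE_common (ι := Fin d) (α := Γ) (fun k x => |q k (s * x) - q k x|)
      (fun k => h1 k s)
    refine ⟨C, hC, fun x => ?_⟩
    rw [pi_norm_le_iff_of_nonneg hC]
    intro k
    have e : (fun k => q k (s * x) - q k 1) k - (fun k => q k x - q k 1) k =
        q k (s * x) - q k x := by
      ring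
    rw [Pi.sub_apply, e]
    exact hC' k x

theorem posE_bound {m d : ℕ} (T : EF m d →ₗ[ℝ] EF m d) : ∃ K : ℝ, 0 ≤ K ∧ ∀ z, ‖T z‖ ≤ K * ‖z‖ :=
  ⟨‖LinearMap.toContinuousLinearMap T‖, norm_nonneg _,
    fun z => (LinearMap.toContinuousLinearMap T).le_opNorm z⟩

theorem PerPair.side (D : PerPair Γ L m) (d : ℕ) {H : Type} [Group H] (e e' : H ≃* L × ZM d)
    (N : EF m d ≃ₗ[ℝ] EF m d) (hN : ∀ z, (N z).1 = z.1) (A B : H → H) (C : ℝ)
    (hA : ∀ h, ‖D.wv d (e' (A (e.symm h))) - N (D.wv d h)‖ ≤ C)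
    (hB : ∀ h, ‖D.wv d (e (B (e'.symm h))) - N.symm (D.wv d h)‖ ≤ C) :
    Nonempty (SideDat D d e e' A B) := by
  obtain ⟨r, ρ, hρ1, ⟨C1, hC1, hr1⟩, hr2⟩ := D.posE_rho d (N : EF m d →ₗ[ℝ] EF m d)
  obtain ⟨lam, t, hlt, ht, ht1, hlam⟩ := D.exists_split
  obtain ⟨K, hK, hKb⟩ := posE_bound (N.symm : EF m d →ₗ[ℝ] EF m d)
  have htt : ∀ x, t (t x) = t x := by
    intro x
    have h1 : D.j (lam x) * t x = x := (hlt x).symm
    have h2 := ht (lam x) (t x)
    rw [h1] at h2
    exact h2.symm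
  have hN' : ∀ z, (N.symm z).1 = z.1 := by
    intro z
    have h1 := hN (N.symm z)
    rw [LinearEquiv.apply_symm_apply] at h1
    exact h1.symm
  have hone : (Multiplicative.ofAdd (0 : Fin d → ℤ)) = (1 : ZM d) := rfl
  have hrx : ∀ x, ‖(N (D.vec (lam x), 0)).2 + (fun k => (ρ (t x) k : ℝ)) - r x‖ ≤ C1 := by
    intro x
    have h1 := hr1 (t x) (lam x)
    rwa [← hlt x] at h1
  refine ⟨{
    hd := fun g => e.symm (lam g.1, g.2)
    tl := fun g => (t g.1, 1)
    τ := fun g => (g.1, Multiplicative.ofAdd (ρ g.1))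
    hd' := fun g => e'.symm (lam g.1, g.2 * (Multiplicative.ofAdd (ρ (t g.1)))⁻¹)
    tl' := fun g => (t g.1, Multiplicative.ofAdd (ρ (t g.1)))
    τ' := fun g => (g.1, 1)
    split := ?_
    tl_mul := ?_
    tl_one := ?_
    τ_one := ?_
    split' := ?_
    tl_mul' := ?_
    tl_one' := ?_
    τ_one' := ?_
    h1 := ?_
    h2 := ?_
    h1' := ?_
    h2' := ?_
    fin := ?_
    fin' := ?_ }⟩
  · rintro ⟨x, c⟩
    show (x, c) = D.jj d (e (e.symm (lam x, c))) * (t x, 1)
    rw [MulEquiv.apply_symm_apply]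
    refine Prod.ext ?_ ?_
    · exact hlt x
    · show c = c * 1
      rw [mul_one]
  · rintro l ⟨x, c⟩
    show (t (D.j (e l).1 * x), (1 : ZM d)) = (t x, 1)
    rw [ht]
  · show (t 1, (1 : ZM d)) = 1
    rw [ht1]
    rfl
  · show ((1 : Γ), Multiplicative.ofAdd (ρ 1)) = 1
    rw [hρ1]
    rfl
  · rintro ⟨x, c⟩
    show (x, c) = D.jj d (e' (e'.symm (lam x, c * (Multiplicative.ofAdd (ρ (t x)))⁻¹))) *
      (t x, Multiplicative.ofAdd (ρ (t x)))
    rw [MulEquiv.apply_symm_apply]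
    refine Prod.ext ?_ ?_
    · exact hlt x
    · show c = c * (Multiplicative.ofAdd (ρ (t x)))⁻¹ * Multiplicative.ofAdd (ρ (t x))
      rw [inv_mul_cancel_right]
  · rintro l ⟨x, c⟩
    show (t (D.j (e' l).1 * x), Multiplicative.ofAdd (ρ (t (D.j (e' l).1 * x)))) =
      (t x, Multiplicative.ofAdd (ρ (t x)))
    rw [ht]
  · show (t 1, Multiplicative.ofAdd (ρ (t 1))) = 1
    rw [ht1, hρ1]
    rfl
  · rfl
  · rintro ⟨x, c⟩
    show (t (t x), Multiplicative.ofAdd (ρ (t (t x)))) = (t x, Multiplicative.ofAdd (ρ (t x)))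
    rw [htt]
  · rintro ⟨x, c⟩
    rfl
  · rintro ⟨x, c⟩
    show (t (t x), (1 : ZM d)) = (t x, 1)
    rw [htt]
  · rintro ⟨x, c⟩
    rfl
  · intro s
    have key := D.local_fin d lam t hlt (N : EF m d →ₗ[ℝ] EF m d) hN (fun h => e' (A (e.symm h)))
      (max C C1) (fun h => (hA h).trans (le_max_left _ _)) (fun _ => 0) ρ r
      (fun s => by
        obtain ⟨C, _, hC⟩ := hr2 s
        exact ⟨C, hC⟩)
      (fun x => by
        refine le_trans (le_of_eq ?_) ((hrx x).trans (le_max_right C C1))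
        have e1 : (fun k => -(((fun _ => (0 : Fin d → ℤ)) (t x)) k : ℝ)) = (0 : Fin d → ℝ) := by
          funext k
          simp
        rw [e1]
        rfl) s
    refine key.subset ?_
    rintro y ⟨g, rfl⟩
    refine ⟨g, ?_⟩
    rw [hone, inv_one, mul_one, mul_one]
  · intro s
    have key := D.local_fin d lam t hlt (N.symm : EF m d →ₗ[ℝ] EF m d) hN'
      (fun h => e (B (e'.symm h)))
      (max C (K * C1)) (fun h => (hB h).trans (le_max_left _ _)) ρ (fun _ => 0)
      (fun x => (N.symm (0, - r x)).2)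
      (fun s => by
        obtain ⟨C, hC0, hC⟩ := hr2 s
        refine ⟨K * C, fun x => ?_⟩
        have e1 : (N.symm (0, - r (s * x))).2 - (N.symm (0, - r x)).2 =
            (N.symm (0, - (r (s * x) - r x))).2 := by
          rw [← Prod.snd_sub, ← map_sub, Prod.mk_sub_mk, sub_zero]
          congr 3
          abel
        rw [e1]
        refine (norm_snd_le _).trans ((hKb _).trans ?_)
        refine mul_le_mul_of_nonneg_left ?_ hK
        rw [Prod.norm_mk, norm_zero, norm_neg]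
        exact max_le hC0 (hC x))
      (fun x => by
        refine le_trans ?_ (le_max_right C (K * C1))
        have e1 : (fun k => ((((fun _ => (0 : Fin d → ℤ)) (t x)) k : ℤ) : ℝ)) =
            (0 : Fin d → ℝ) := by
          funext k
          simp
        have e2 : N.symm (D.vec (lam x), (N (D.vec (lam x), 0)).2) = (D.vec (lam x), 0) := by
          rw [LinearEquiv.symm_apply_eq]
          refine Prod.ext ?_ rfl
          rw [hN]
        have e3 : (N.symm (D.vec (lam x), fun k => -(ρ (t x) k : ℝ))).2 -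
            (N.symm (0, - r x)).2 = (N.symm (0, -((N (D.vec (lam x), 0)).2 +
              (fun k => (ρ (t x) k : ℝ)) - r x))).2 := by
          have e4 : ((0 : E m), -((N (D.vec (lam x), 0)).2 +
              (fun k => (ρ (t x) k : ℝ)) - r x)) =
              (D.vec (lam x), fun k => -(ρ (t x) k : ℝ)) - (0, - r x) -
                (D.vec (lam x), (N (D.vec (lam x), 0)).2) := by
            refine Prod.ext ?_ ?_
            · simp
            · funext k
              simp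
              ring
          rw [e4, map_sub, map_sub, e2]
          simp
        have e5 : ∀ a b : Fin d → ℝ, a + (0 : Fin d → ℝ) - b = a - b := fun a b => by
          rw [add_zero]
        show ‖(N.symm (D.vec (lam x), fun k => -(ρ (t x) k : ℝ))).2 +
          (fun k => ((((fun _ => (0 : Fin d → ℤ)) (t x)) k : ℤ) : ℝ)) -
          (N.symm (0, - r x)).2‖ ≤ K * C1
        rw [e1, e5, e3]
        refine (norm_snd_le _).trans ((hKb _).trans ?_)
        refine mul_le_mul_of_nonneg_left ?_ hK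
        rw [Prod.norm_mk, norm_zero, norm_neg]
        exact max_le hC1 (hrx x)) s
    refine key.subset ?_
    rintro y ⟨g, rfl⟩
    exact ⟨g, rfl⟩

end QIG
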