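import Pool.Agent.W_a51130_h62.Pos.D

/-!
Linear extension of gluing maps, real transversality (positive part, file F1).

PROOFS.
`exists_ext`: as `exists_extension` of `PcLat.lean`, with `wv_basis`.
`real_transverse`: `M` the integer matrix with `vec (ψ (1, e_j)).1 = ∑ i, M i j • b i`, `b` the basis of `D₁.basis`
(reindexed, `m' = d`).  For `z = (0, c)`, `(Ψ z).1 = ∑ i, (M c) i • b i`.  If `c ≠ 0` and `M c = 0` then `det M = 0`, over `ℝ`
and so over `ℤ`, and there is an integer vector `v ≠ 0` with `M v = 0` (`Matrix.exists_mulVec_eq_zero_iff`), so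
`(ψ (1, v)).1 = 1`, a contradiction.
-/

namespace QIG

open Monoid

section ext

variable {Γ L Γ' L' : Type} [Group Γ] [Group L] [Group Γ'] [Group L'] {m m' : ℕ}

theorem F1_lin_unique {V : Type} [AddCommGroup V] [Module ℝ V] (D₀ : PerPair Γ L m) (d : ℕ)
    (f g : EF m d →ₗ[ℝ] V) (h : ∀ x, f (D₀.wv d x) = g (D₀.wv d x)) : f = g := by
  obtain ⟨b, hb⟩ := D₀.wv_basis d
  refine b.ext fun i => ?_
  obtain ⟨x, hx⟩ := (hb (b i)).2 ⟨Pi.single i 1, by
    rw [Finset.sum_eq_single i]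
    · simp
    · intro j _ hj
      simp [Pi.single_eq_of_ne hj]
    · intro hi
      exact absurd (Finset.mem_univ i) hi⟩
  rw [← hx]
  exact h x

theorem F1_exists_lin (D₀ : PerPair Γ L m) (D₁ : PerPair Γ' L' m') (d d' : ℕ)
    (ψ : L × ZM d →* L' × ZM d') :
    ∃ f : EF m d →ₗ[ℝ] EF m' d', ∀ h, f (D₀.wv d h) = D₁.wv d' (ψ h) := by
  obtain ⟨b, hb⟩ := D₀.wv_basis d
  have h1 : ∀ i, ∃ x, D₀.wv d x = b i := by
    intro i
    refine (hb (b i)).2 ⟨Pi.single i 1, ?_⟩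
    rw [Finset.sum_eq_single i]
    · simp
    · intro j _ hj
      simp [Pi.single_eq_of_ne hj]
    · intro hi
      exact absurd (Finset.mem_univ i) hi
  choose x hx using h1
  let f : EF m d →ₗ[ℝ] EF m' d' := b.constr ℝ fun i => D₁.wv d' (ψ (x i))
  have hfb : ∀ i, f (b i) = D₁.wv d' (ψ (x i)) := fun i => b.constr_basis ℝ _ i
  let H : Subgroup (L × ZM d) :=
    { carrier := {h | f (D₀.wv d h) = D₁.wv d' (ψ h)}
      mul_mem' := by
        intro a c ha hc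
        change f (D₀.wv d (a * c)) = D₁.wv d' (ψ (a * c))
        rw [PerPair.wv_mul, map_add, map_mul, PerPair.wv_mul]
        exact congrArg₂ _ ha hc
      one_mem' := by
        change f (D₀.wv d 1) = D₁.wv d' (ψ 1)
        rw [PerPair.wv_one, map_zero, map_one, PerPair.wv_one]
      inv_mem' := by
        intro a ha
        change f (D₀.wv d a⁻¹) = D₁.wv d' (ψ a⁻¹)
        rw [PerPair.wv_inv, map_neg, map_inv, PerPair.wv_inv]
        exact congrArg _ ha }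
  let A : AddSubgroup (EF m d) :=
    { carrier := {v | ∃ h ∈ H, D₀.wv d h = v}
      add_mem' := by
        rintro _ _ ⟨a, ha, rfl⟩ ⟨c, hc, rfl⟩
        exact ⟨a * c, H.mul_mem ha hc, PerPair.wv_mul D₀ d a c⟩
      zero_mem' := ⟨1, H.one_mem, PerPair.wv_one D₀ d⟩
      neg_mem' := by
        rintro _ ⟨a, ha, rfl⟩
        exact ⟨a⁻¹, H.inv_mem ha, PerPair.wv_inv D₀ d a⟩ }
  have hA : ∀ i, b i ∈ A := fun i => ⟨x i, by
    change f (D₀.wv d (x i)) = D₁.wv d' (ψ (x i))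
    rw [hx i, hfb i], hx i⟩
  refine ⟨f, fun h => ?_⟩
  obtain ⟨k, hk⟩ := (hb (D₀.wv d h)).1 ⟨h, rfl⟩
  have h2 : D₀.wv d h ∈ A := by
    rw [hk]
    refine sum_mem fun i _ => ?_
    rw [Int.cast_smul_eq_zsmul]
    exact zsmul_mem (hA i) _
  obtain ⟨h', hh', he⟩ := h2
  have h3 := PerPair.wv_inj D₀ d he
  rw [← h3]
  exact hh'

theorem PerPair.exists_ext (D₀ : PerPair Γ L m) (D₁ : PerPair Γ' L' m') (d d' : ℕ)
    (ψ : L × ZM d ≃* L' × ZM d') :
    ∃ Ψ : EF m d ≃ₗ[ℝ] EF m' d', ∀ h, Ψ (D₀.wv d h) = D₁.wv d' (ψ h) := by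
  obtain ⟨f, hf⟩ := F1_exists_lin D₀ D₁ d d' ψ.toMonoidHom
  obtain ⟨g, hg⟩ := F1_exists_lin D₁ D₀ d' d ψ.symm.toMonoidHom
  have hf' : ∀ h, f (D₀.wv d h) = D₁.wv d' (ψ h) := hf
  have hg' : ∀ h, g (D₁.wv d' h) = D₀.wv d (ψ.symm h) := hg
  have h1 : g ∘ₗ f = LinearMap.id := by
    refine F1_lin_unique D₀ d _ _ fun x => ?_
    rw [LinearMap.comp_apply, hf', hg', ψ.symm_apply_apply]
    rfl
  have h2 : f ∘ₗ g = LinearMap.id := by
    refine F1_lin_unique D₁ d' _ _ fun x => ?_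
    rw [LinearMap.comp_apply, hg', hf', ψ.apply_symm_apply]
    rfl
  exact ⟨LinearEquiv.ofLinear f g h2 h1, hf'⟩

theorem F1_vec_one (D₀ : PerPair Γ L m) : D₀.vec 1 = 0 := by
  have h := D₀.vec_mul 1 1
  rw [one_mul] at h
  exact left_eq_add.1 h

theorem F1_wv_fib (D₀ : PerPair Γ L m) (d : ℕ) (v : Fin d → ℤ) :
    D₀.wv d (1, Multiplicative.ofAdd v) = (0, fun k => (v k : ℝ)) := by
  refine Prod.ext ?_ rfl
  exact F1_vec_one D₀

theorem PerPair.real_transverse (D₀ : PerPair Γ L m) (D₁ : PerPair Γ' L' m') (d d' : ℕ)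
    (ψ : L × ZM d ≃* L' × ZM d') (Ψ : EF m d ≃ₗ[ℝ] EF m' d')
    (hΨ : ∀ h, Ψ (D₀.wv d h) = D₁.wv d' (ψ h)) (hd : m' = d)
    (ht : ∀ h : L × ZM d, h.1 = 1 → (ψ h).1 = 1 → h = 1) (z : EF m d) (h1 : z.1 = 0)
    (h2 : (Ψ z).1 = 0) : z = 0 := by
  subst hd
  obtain ⟨b, hb⟩ := D₁.basis
  have hM : ∀ j : Fin m', ∃ k : Fin m' → ℤ,
      D₁.vec (ψ (1, Multiplicative.ofAdd (Pi.single j 1))).1 = ∑ i, (k i : ℝ) • b i :=
    fun j => (hb _).1 ⟨_, rfl⟩
  choose k hk using hM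
  let M : Matrix (Fin m') (Fin m') ℤ := Matrix.of fun i j => k j i
  have hform : ∀ c : Fin m' → ℝ, (Ψ (0, c)).1 =
      ∑ i, ((M.map (Int.cast : ℤ → ℝ)).mulVec c i) • b i := by
    intro c
    let Φ : (Fin m' → ℝ) →ₗ[ℝ] E m' :=
      (LinearMap.fst ℝ (E m') (Fin d' → ℝ)) ∘ₗ Ψ.toLinearMap ∘ₗ
        (LinearMap.inr ℝ (E m) (Fin m' → ℝ))
    have hΦ : ∀ c, Φ c = (Ψ (0, c)).1 := fun c => rfl
    have hΦj : ∀ j : Fin m', Φ (fun i => if j = i then 1 else 0) =
        ∑ i, (k j i : ℝ) • b i := by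
      intro j
      rw [hΦ, ← hk j]
      have h3 := hΨ (1, Multiplicative.ofAdd (Pi.single j 1))
      rw [F1_wv_fib] at h3
      have h4 : (fun i : Fin m' => if j = i then (1 : ℝ) else 0) =
          fun k => ((Pi.single j 1 : Fin m' → ℤ) k : ℝ) := by
        funext i
        by_cases hji : j = i
        · subst hji
          simp
        · rw [if_neg hji, Pi.single_eq_of_ne (Ne.symm hji)]
          simp
      rw [h4, h3]
      rfl
    rw [← hΦ, LinearMap.pi_apply_eq_sum_univ Φ c]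
    simp only [hΦj, Matrix.mulVec, dotProduct, Finset.smul_sum, Finset.sum_smul]
    rw [Finset.sum_comm]
    refine Finset.sum_congr rfl fun i _ => Finset.sum_congr rfl fun j _ => ?_
    rw [smul_smul]
    congr 1
    simp [M, mul_comm]
  obtain ⟨z1, c⟩ := z
  dsimp only at h1
  subst h1
  by_contra hne
  have hc : c ≠ 0 := by
    rintro rfl
    exact hne rfl
  rw [hform c] at h2
  have h3 : (M.map (Int.cast : ℤ → ℝ)).mulVec c = 0 := by
    funext i
    exact Fintype.linearIndependent_iff.1 b.linearIndependent _ h2 i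
  have h4 : (M.map (Int.cast : ℤ → ℝ)).det = 0 := Matrix.exists_mulVec_eq_zero_iff.1 ⟨c, hc, h3⟩
  have h5 : M.det = 0 := by
    have h6 : (M.map (Int.cast : ℤ → ℝ)).det = ((M.det : ℤ) : ℝ) := by
      have := (Int.castRingHom ℝ).map_det M
      rw [RingHom.mapMatrix_apply] at this
      exact this.symm
    rw [h6] at h4
    exact_mod_cast h4
  obtain ⟨v, hv, hMv⟩ := Matrix.exists_mulVec_eq_zero_iff.2 h5
  have h7 : (ψ (1, Multiplicative.ofAdd v)).1 = 1 := by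
    apply D₁.vec_inj
    rw [F1_vec_one]
    have h8 := hΨ (1, Multiplicative.ofAdd v)
    rw [F1_wv_fib] at h8
    have h9 : D₁.vec (ψ (1, Multiplicative.ofAdd v)).1 = (Ψ (0, fun k => (v k : ℝ))).1 := by
      rw [h8]
      rfl
    rw [h9, hform]
    refine Finset.sum_eq_zero fun i _ => ?_
    have h10 : (M.map (Int.cast : ℤ → ℝ)).mulVec (fun k => (v k : ℝ)) i =
        ((M.mulVec v i : ℤ) : ℝ) := by
      simp [Matrix.mulVec, dotProduct]
    rw [h10, hMv]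
    simp
  have h11 := ht (1, Multiplicative.ofAdd v) rfl h7
  apply hv
  have h12 := congrArg Prod.snd h11
  exact Multiplicative.ofAdd.injective h12

end ext

end QIG
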