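import Pool.Agent.W_a51130_h62.Pos.E
import Pool.Agent.W_a51130_h62.Pos.F1
import Pool.Agent.W_a51130_h62.Pos.C4

/-!
The criterion and the complementary case for peripheral pairs (positive part, file F).

PROOFS.
`criterion`: `H = L 0 × Z^{d 0}`; `A (a, c) = (a, ⌊(A₀ (wv (a, c))).2⌋)` (coordinatewise floor), `B` the same with
`A₀.symm`.  So `‖wv (A h) - A₀ (wv h)‖ ≤ 1`, `‖wv (B h) - A₀.symm (wv h)‖ ≤ 1`.  On the side `0`: `side` with
`e = e' = refl`, `N = A₀`.  On the side `1`: `side` with `e = ψ`, `e' = ψ'`, `N = A₁`: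
`wv (ψ' (A (ψ.symm h))) = Ψ (wv (A (ψ.symm h)))` is at distance `≤ ‖Ψ‖` (a bound of `Ψ`, finite dimension) of
`Ψ (A₀ (wv (ψ.symm h))) = A₁ (wv h)`; `wv (ψ k) = A₁.symm (Ψ (A₀ (wv k)))` for all `k` (from `hA`), so
`wv (ψ (B (ψ'.symm h)))` is at bounded distance of `A₁.symm (Ψ (wv (ψ'.symm h))) = A₁.symm (wv h)`.
Then `CDat.quasiIsom` for `φ = pglue D d ψ`, `φ' = pglue D d ψ'`.  `{B (A l) l⁻¹}` is finite: `wv (B (A l)) - wv l` is
bounded (`‖wv (B (A l)) - A₀.symm (wv (A l))‖ ≤ 1`, `‖A₀.symm (wv (A l)) - wv l‖ ≤ ‖A₀.symm‖`), `wv_mul`, `wv_inv`,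
`wv_fin`.
`complementary`: `Ψ, Ψ'` extensions of `ψ, ψ'`; `J z = (z.1, (Ψ z).1)` and `J'` are injective, so linear equivalences
of `EF (m 0) (d 0)` onto `E (m 0) × E (m 1)` (dimensions); `A₀ = J'⁻¹ J`, `A₁ = Ψ' A₀ Ψ⁻¹`, and `criterion` for `Ψ'`.
-/

namespace QIG

open Monoid

variable {Γ L : Fin 2 → Type} [∀ i, Group (Γ i)] [∀ i, Group (L i)] {m : Fin 2 → ℕ}

/-- The identifications of the wall group with the two sides. -/
def ee {d : Fin 2 → ℕ} (ψ : L 0 × ZM (d 0) ≃* L 1 × ZM (d 1)) :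
    ∀ i : Fin 2, L 0 × ZM (d 0) ≃* L i × ZM (d i)
  | 0 => MulEquiv.refl _
  | 1 => ψ

/-- The two inclusions of the wall group. -/
def pglue (D : ∀ i, PerPair (Γ i) (L i) (m i)) (d : Fin 2 → ℕ)
    (ψ : L 0 × ZM (d 0) ≃* L 1 × ZM (d 1)) (i : Fin 2) : L 0 × ZM (d 0) →* Γ i × ZM (d i) :=
  ((D i).jj (d i)).comp (ee ψ i).toMonoidHom

/-- The rounding of a linear automorphism. -/
noncomputable def posF_fl {Γ L : Type} [Group Γ] [Group L] {m : ℕ} (D : PerPair Γ L m) (d : ℕ)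
    (N : EF m d ≃ₗ[ℝ] EF m d) (h : L × ZM d) : L × ZM d :=
  (h.1, Multiplicative.ofAdd (fun k => ⌊(N (D.wv d h)).2 k⌋))

theorem posF_fl_le {Γ L : Type} [Group Γ] [Group L] {m : ℕ} (D : PerPair Γ L m) (d : ℕ)
    (N : EF m d ≃ₗ[ℝ] EF m d) (hN : ∀ z, (N z).1 = z.1) (h : L × ZM d) :
    ‖D.wv d (posF_fl D d N h) - N (D.wv d h)‖ ≤ 1 := by
  rw [Prod.norm_def]
  apply max_le
  · have e : (D.wv d (posF_fl D d N h) - N (D.wv d h)).1 = 0 := by
      rw [Prod.fst_sub, hN]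
      exact sub_self _
    rw [e, norm_zero]
    exact zero_le_one
  · rw [pi_norm_le_iff_of_nonneg zero_le_one]
    intro k
    have e : (D.wv d (posF_fl D d N h) - N (D.wv d h)).2 k =
        (⌊(N (D.wv d h)).2 k⌋ : ℝ) - (N (D.wv d h)).2 k := rfl
    rw [e, Real.norm_eq_abs, abs_le]
    have h1 := Int.floor_le ((N (D.wv d h)).2 k)
    have h2 := Int.lt_floor_add_one ((N (D.wv d h)).2 k)
    constructor <;> linarith

theorem posF_bd {V W : Type} [NormedAddCommGroup V] [NormedSpace ℝ V] [FiniteDimensional ℝ V]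
    [NormedAddCommGroup W] [NormedSpace ℝ W] (T : V →ₗ[ℝ] W) :
    ∃ K : ℝ, 0 ≤ K ∧ ∀ v, ‖v‖ ≤ 1 → ‖T v‖ ≤ K := by
  refine ⟨‖LinearMap.toContinuousLinearMap T‖, norm_nonneg _, fun v hv => ?_⟩
  have h := (LinearMap.toContinuousLinearMap T).le_opNorm v
  have h2 : LinearMap.toContinuousLinearMap T v = T v := rfl
  rw [h2] at h
  exact h.trans (mul_le_of_le_one_right (norm_nonneg _) hv)

theorem posF_fin {Γ L : Type} [Group Γ] [Group L] {m : ℕ} (D : PerPair Γ L m) (d : ℕ)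
    (N : EF m d ≃ₗ[ℝ] EF m d) (hN : ∀ z, (N z).1 = z.1) (hN' : ∀ z, (N.symm z).1 = z.1) :
    {x | ∃ l : L × ZM d, x = posF_fl D d N.symm (posF_fl D d N l) * l⁻¹}.Finite := by
  obtain ⟨K, hK, hKb⟩ := posF_bd (N.symm : EF m d →ₗ[ℝ] EF m d)
  refine (D.wv_fin d (1 + K)).subset ?_
  rintro x ⟨l, rfl⟩
  show ‖D.wv d (posF_fl D d N.symm (posF_fl D d N l) * l⁻¹)‖ ≤ 1 + K
  rw [D.wv_mul, D.wv_inv]
  have e : D.wv d (posF_fl D d N.symm (posF_fl D d N l)) + -D.wv d l =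
      (D.wv d (posF_fl D d N.symm (posF_fl D d N l)) - N.symm (D.wv d (posF_fl D d N l))) +
      N.symm (D.wv d (posF_fl D d N l) - N (D.wv d l)) := by
    rw [map_sub, LinearEquiv.symm_apply_apply]
    abel
  rw [e]
  exact (norm_add_le _ _).trans (add_le_add (posF_fl_le D d N.symm hN' _)
    (hKb _ (posF_fl_le D d N hN l)))

theorem criterion (D : ∀ i, PerPair (Γ i) (L i) (m i)) (d : Fin 2 → ℕ)
    (ψ ψ' : L 0 × ZM (d 0) ≃* L 1 × ZM (d 1)) (A₀ : EF (m 0) (d 0) ≃ₗ[ℝ] EF (m 0) (d 0))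
    (A₁ : EF (m 1) (d 1) ≃ₗ[ℝ] EF (m 1) (d 1)) (Ψ : EF (m 0) (d 0) ≃ₗ[ℝ] EF (m 1) (d 1))
    (h0 : ∀ z, (A₀ z).1 = z.1) (h1 : ∀ z, (A₁ z).1 = z.1)
    (hΨ : ∀ h, Ψ ((D 0).wv (d 0) h) = (D 1).wv (d 1) (ψ' h))
    (hA : ∀ h, Ψ (A₀ ((D 0).wv (d 0) h)) = A₁ ((D 1).wv (d 1) (ψ h))) :
    QuasiIsom (PushoutI (pglue D d ψ)) (PushoutI (pglue D d ψ')) := by
  have h0' : ∀ z, (A₀.symm z).1 = z.1 := fun z => by
    have := h0 (A₀.symm z)
    rw [LinearEquiv.apply_symm_apply] at this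
    exact this.symm
  obtain ⟨K, hK, hKb⟩ := posF_bd (Ψ : EF (m 0) (d 0) →ₗ[ℝ] EF (m 1) (d 1))
  obtain ⟨K', hK', hKb'⟩ := posF_bd
    ((A₁.symm : EF (m 1) (d 1) →ₗ[ℝ] EF (m 1) (d 1)).comp
      ((Ψ : EF (m 0) (d 0) →ₗ[ℝ] EF (m 1) (d 1)).comp (A₀ : EF (m 0) (d 0) →ₗ[ℝ] EF (m 0) (d 0))))
  have S : ∀ i, Nonempty (SideDat (D i) (d i) (ee ψ i) (ee ψ' i) (posF_fl (D 0) (d 0) A₀)
      (posF_fl (D 0) (d 0) A₀.symm)) := by
    intro i
    fin_cases i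
    · exact (D 0).side (d 0) (MulEquiv.refl _) (MulEquiv.refl _) A₀ h0 _ _ 1
        (fun h => posF_fl_le (D 0) (d 0) A₀ h0 h) (fun h => posF_fl_le (D 0) (d 0) A₀.symm h0' h)
    · refine (D 1).side (d 1) ψ ψ' A₁ h1 _ _ (K + K') ?_ ?_
      · intro h
        rw [← hΨ]
        have e : A₁ ((D 1).wv (d 1) h) = Ψ (A₀ ((D 0).wv (d 0) (ψ.symm h))) := by
          rw [hA, MulEquiv.apply_symm_apply]
        rw [e, ← map_sub]
        refine (hKb _ (posF_fl_le (D 0) (d 0) A₀ h0 _)).trans ?_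
        linarith
      · intro h
        have e : ∀ k, (D 1).wv (d 1) (ψ k) = A₁.symm (Ψ (A₀ ((D 0).wv (d 0) k))) := by
          intro k
          rw [hA, LinearEquiv.symm_apply_apply]
        have e2 : (D 1).wv (d 1) h = Ψ (A₀ (A₀.symm ((D 0).wv (d 0) (ψ'.symm h)))) := by
          rw [LinearEquiv.apply_symm_apply, hΨ, MulEquiv.apply_symm_apply]
        rw [e, e2, ← map_sub, ← map_sub, ← map_sub]
        refine (hKb' _ (posF_fl_le (D 0) (d 0) A₀.symm h0' _)).trans ?_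
        linarith
  have S := fun i => Classical.choice (S i)
  let C : CDat (pglue D d ψ) (pglue D d ψ') :=
    { hd := fun i => (S i).hd
      tl := fun i => (S i).tl
      τ := fun i => (S i).τ
      A := posF_fl (D 0) (d 0) A₀
      split := fun i g => (S i).split g
      tl_mul := fun i l g => (S i).tl_mul l g
      tl_one := fun i => (S i).tl_one
      τ_one := fun i => (S i).τ_one }
  let C' : CDat (pglue D d ψ') (pglue D d ψ) :=
    { hd := fun i => (S i).hd'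
      tl := fun i => (S i).tl'
      τ := fun i => (S i).τ'
      A := posF_fl (D 0) (d 0) A₀.symm
      split := fun i g => (S i).split' g
      tl_mul := fun i l g => (S i).tl_mul' l g
      tl_one := fun i => (S i).tl_one'
      τ_one := fun i => (S i).τ_one' }
  have hinj : ∀ (χ : L 0 × ZM (d 0) ≃* L 1 × ZM (d 1)) (i : Fin 2),
      Function.Injective (pglue D d χ i) := by
    intro χ i
    have h2 : Function.Injective ((D i).jj (d i)) := by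
      rintro ⟨a, b⟩ ⟨a', b'⟩ h
      have h3 : (D i).j a = (D i).j a' := congrArg Prod.fst h
      have h4 : b = b' := congrArg Prod.snd h
      rw [(D i).j_inj h3, h4]
    exact h2.comp (ee χ i).injective
  have hfg : ∀ i, Group.FG (Γ i × ZM (d i)) := by
    intro i
    haveI := (D i).fg
    infer_instance
  exact CDat.quasiIsom C C' (hinj ψ) (hinj ψ') hfg hfg (fun i g => (S i).h1 g)
    (fun i g => (S i).h2 g) (fun i g => (S i).h1' g) (fun i g => (S i).h2' g)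
    (posF_fin (D 0) (d 0) A₀ h0 h0') (posF_fin (D 0) (d 0) A₀.symm h0' (by simpa using h0))
    (fun i s => (S i).fin s) (fun i s => (S i).fin' s)

theorem complementary (D : ∀ i, PerPair (Γ i) (L i) (m i)) (d : Fin 2 → ℕ)
    (hd0 : m 1 = d 0) (hd1 : m 0 = d 1) (ψ ψ' : L 0 × ZM (d 0) ≃* L 1 × ZM (d 1))
    (ht : ∀ h : L 0 × ZM (d 0), h.1 = 1 → (ψ h).1 = 1 → h = 1)
    (ht' : ∀ h : L 0 × ZM (d 0), h.1 = 1 → (ψ' h).1 = 1 → h = 1) :
    QuasiIsom (PushoutI (pglue D d ψ)) (PushoutI (pglue D d ψ')) := by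
  obtain ⟨Ψ, hΨ⟩ := (D 0).exists_ext (D 1) (d 0) (d 1) ψ
  obtain ⟨Ψ', hΨ'⟩ := (D 0).exists_ext (D 1) (d 0) (d 1) ψ'
  have key : ∀ (χ : L 0 × ZM (d 0) ≃* L 1 × ZM (d 1)) (X : EF (m 0) (d 0) ≃ₗ[ℝ] EF (m 1) (d 1)),
      (∀ h, X ((D 0).wv (d 0) h) = (D 1).wv (d 1) (χ h)) →
      (∀ h : L 0 × ZM (d 0), h.1 = 1 → (χ h).1 = 1 → h = 1) →
      ∃ J : EF (m 0) (d 0) ≃ₗ[ℝ] E (m 0) × E (m 1), ∀ z, J z = (z.1, (X z).1) := by
    intro χ X hX hχ
    let J : EF (m 0) (d 0) →ₗ[ℝ] E (m 0) × E (m 1) :=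
      (LinearMap.fst ℝ (E (m 0)) (Fin (d 0) → ℝ)).prod
        ((LinearMap.fst ℝ (E (m 1)) (Fin (d 1) → ℝ)).comp
          (X : EF (m 0) (d 0) →ₗ[ℝ] EF (m 1) (d 1)))
    have hJ : ∀ z, J z = (z.1, (X z).1) := fun z => rfl
    have hinj : Function.Injective J := by
      rw [← LinearMap.ker_eq_bot, LinearMap.ker_eq_bot']
      intro z hz
      rw [hJ] at hz
      exact (D 0).real_transverse (D 1) (d 0) (d 1) χ X hX hd0 hχ z (congrArg Prod.fst hz)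
        (congrArg Prod.snd hz)
    have hdim : Module.finrank ℝ (EF (m 0) (d 0)) = Module.finrank ℝ (E (m 0) × E (m 1)) := by
      rw [Module.finrank_prod, Module.finrank_prod, finrank_euclideanSpace_fin,
        finrank_euclideanSpace_fin, Module.finrank_fin_fun, hd0]
    exact ⟨LinearEquiv.ofInjectiveOfFinrankEq J hinj hdim, fun z => rfl⟩
  obtain ⟨J, hJ⟩ := key ψ Ψ hΨ ht
  obtain ⟨J', hJ'⟩ := key ψ' Ψ' hΨ' ht'
  have hA0 : ∀ z, J' ((J.trans J'.symm) z) = J z := by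
    intro z
    simp
  have hA1 : ∀ z, ((J.trans J'.symm) z).1 = z.1 := by
    intro z
    have := congrArg Prod.fst (hA0 z)
    rw [hJ, hJ'] at this
    exact this
  have hA2 : ∀ z, (Ψ' ((J.trans J'.symm) z)).1 = (Ψ z).1 := by
    intro z
    have := congrArg Prod.snd (hA0 z)
    rw [hJ, hJ'] at this
    exact this
  refine criterion D d ψ ψ' (J.trans J'.symm) ((Ψ.symm.trans (J.trans J'.symm)).trans Ψ') Ψ' hA1
    ?_ hΨ' ?_
  · intro z
    show (Ψ' ((J.trans J'.symm) (Ψ.symm z))).1 = z.1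
    rw [hA2, LinearEquiv.apply_symm_apply]
  · intro h
    show Ψ' ((J.trans J'.symm) ((D 0).wv (d 0) h)) =
      Ψ' ((J.trans J'.symm) (Ψ.symm ((D 1).wv (d 1) (ψ h))))
    rw [← hΨ h, LinearEquiv.symm_apply_apply]

end QIG
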