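import Pool.Agent.W_a51130_h62.Pos.D
import Pool.Agent.W_a51130_h62.Pos.B
import Pool.Agent.W_a51130_h62.ShortEq

/-!
The peripheral pair of a piece (positive part, file G1).

`Γ = P.Grp`, `L = P.Cusp`, `j = P.incl`, `vec g = P.tvec g`; `fin`: `lat_finite`; `basis`: `exists_basis`;
`fg`: `Piece.exists_gset`, `GSet.fg`; `rho`: `exists_rho'` (`P.incl g` is `P.tr (P.tvec g)`).
-/

namespace QIG

open Monoid

theorem g1_incl_inj {m : ℕ} (P : Piece m) : Function.Injective P.incl :=
  Subtype.val_injective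

theorem g1_tvec_mul {m : ℕ} (P : Piece m) (g h : P.Cusp) :
    P.tvec (g * h) = P.tvec g + P.tvec h := by
  apply Subtype.ext
  apply P.isTr_unique (P.tvec_spec (g * h))
  change (P.incl g).1 * (P.incl h).1 = transl ((P.tvec g : E m) + (P.tvec h : E m))
  rw [transl_add, ← show (P.incl g).1 = transl (P.tvec g : E m) from P.tvec_spec g,
    ← show (P.incl h).1 = transl (P.tvec h : E m) from P.tvec_spec h]

theorem g1_tvec_inj {m : ℕ} (P : Piece m) : Function.Injective P.tvec := by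
  intro g h hgh
  apply g1_incl_inj P
  apply Subtype.ext
  rw [show (P.incl g).1 = transl (P.tvec g : E m) from P.tvec_spec g,
    show (P.incl h).1 = transl (P.tvec h : E m) from P.tvec_spec h, hgh]

theorem g1_incl_tr {m : ℕ} (P : Piece m) (g : P.Cusp) : P.incl g = P.tr (P.tvec g) :=
  Subtype.ext (P.tvec_spec g)

theorem g1_tvec_ofVec {m : ℕ} (P : Piece m) (v : P.lat) : P.tvec (P.ofVec v) = v :=
  Subtype.ext (P.isTr_unique (P.tvec_spec _) (P.ofVec_spec _))

theorem Piece.perPair {m : ℕ} (P : Piece m) :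
    ∃ D : PerPair P.Grp P.Cusp m, D.j = P.incl ∧ ∀ g, D.vec g = P.tvec g := by
  refine ⟨{
    j := P.incl
    j_inj := g1_incl_inj P
    comm := fun a b => g1_tvec_inj P (by rw [g1_tvec_mul, g1_tvec_mul, add_comm])
    vec := fun g => (P.tvec g : E m)
    vec_mul := fun a b => by rw [g1_tvec_mul]; rfl
    vec_inj := fun a b hab => g1_tvec_inj P (Subtype.ext hab)
    fin := ?_
    basis := ?_
    fg := ?_
    rho := ?_ }, rfl, fun _ => rfl⟩
  · intro r
    exact Set.Finite.preimage (g1_tvec_inj P).injOn (P.lat_finite r)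
  · obtain ⟨b, hb⟩ := P.exists_basis
    refine ⟨b, fun v => ?_⟩
    rw [← hb v]
    constructor
    · rintro ⟨a, rfl⟩
      exact (P.tvec a).2
    · intro hv
      exact ⟨P.ofVec ⟨v, hv⟩, by rw [g1_tvec_ofVec]⟩
  · obtain ⟨r, hr⟩ := P.exists_gset
    exact (hr r le_rfl).fg
  · intro ℓ
    obtain ⟨ρ, h1, C, h2⟩ := P.exists_rho' ℓ
    refine ⟨ρ, h1, C, fun g a => ?_⟩
    rw [g1_incl_tr]
    exact h2 g (P.tvec a)

end QIG
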