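import Pool.Agent.W_a51130_h62.Pos.F
import Pool.Agent.W_a51130_h62.Pos.G1
import Pool.Agent.W_a51130_h62.Pos.Defs

/-!
The positive result for pieces (positive part, file G).

`D i` from `Piece.perPair`.  The groups `PushoutI (tgluing P d ψ)` and `PushoutI (pglue D d ψ)` are isomorphic
(`pushEquiv` with identity maps, or the inclusions are equal), `quasiIsom_congr`.  `TCusp`, `TGrp`, `EZ` are by
definition products; `IsVec x z` means `z = (D i).wv (d i) x` (`isTr_unique`, `tvec_spec`).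
`tamalgam_criterion`: `criterion` for `Ψ'` (`hA` is `hΨ` and the relation).
`exists_transverse`: lattice bases (`D.basis`) give `L i ≃* Z^{m i}`; `(v, s) ↦ (s, v)`.
-/

namespace QIG

open Monoid

section posG

variable {m : ℕ}

/-- The identity. -/
def Piece.posG_grp (P : Piece m) (d : ℕ) : P.Grp × ZM d ≃* P.TGrp d where
  toFun x := x
  invFun x := x
  left_inv _ := rfl
  right_inv _ := rfl
  map_mul' _ _ := rfl

/-- The identity. -/
def Piece.posG_cusp (P : Piece m) (d : ℕ) : P.Cusp × ZM d ≃* P.TCusp d where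
  toFun x := x
  invFun x := x
  left_inv _ := rfl
  right_inv _ := rfl
  map_mul' _ _ := rfl

theorem Piece.posG_isVec (P : Piece m) (d : ℕ) (D : PerPair P.Grp P.Cusp m)
    (hv : ∀ g, D.vec g = P.tvec g) (x : P.Cusp × ZM d) :
    Piece.IsVec (P := P) (d := d) x (D.wv d x) := by
  refine ⟨?_, fun k => rfl⟩
  change P.IsTr (P.incl x.1) (D.vec x.1)
  rw [hv]
  exact P.tvec_spec x.1

theorem Piece.posG_unique (P : Piece m) (d : ℕ) (D : PerPair P.Grp P.Cusp m)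
    (hv : ∀ g, D.vec g = P.tvec g) (x : P.Cusp × ZM d) (z : EF m d)
    (h : Piece.IsVec (P := P) (d := d) x z) : z = D.wv d x := by
  refine Prod.ext ?_ ?_
  · change z.1 = D.vec x.1
    rw [hv]
    exact P.isTr_unique h.1 (P.tvec_spec x.1)
  · funext k
    exact h.2 k

/-- The lattice coordinates. -/
theorem PerPair.posG_lat {Γ L : Type} [Group Γ] [Group L] (D : PerPair Γ L m) :
    Nonempty (ZM m ≃* L) := by
  obtain ⟨b, hb⟩ := D.basis
  have h1 : ∀ k : Fin m → ℤ, ∃ a, D.vec a = ∑ i, (k i : ℝ) • b i := fun k => (hb _).2 ⟨k, rfl⟩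
  choose f hf using h1
  have hmul : ∀ k l : ZM m, f (Multiplicative.toAdd (k * l)) =
      f (Multiplicative.toAdd k) * f (Multiplicative.toAdd l) := by
    intro k l
    apply D.vec_inj
    rw [D.vec_mul, hf, hf, hf, ← Finset.sum_add_distrib]
    apply Finset.sum_congr rfl
    intro i _
    rw [toAdd_mul, Pi.add_apply, Int.cast_add, add_smul]
  let F : ZM m →* L := MonoidHom.mk' (fun k => f (Multiplicative.toAdd k)) hmul
  refine ⟨MulEquiv.ofBijective F ⟨?_, ?_⟩⟩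
  · intro k l hkl
    have h2 : f (Multiplicative.toAdd k) = f (Multiplicative.toAdd l) := hkl
    have h3 : ∑ i, (Multiplicative.toAdd k i : ℝ) • b i =
        ∑ i, (Multiplicative.toAdd l i : ℝ) • b i := by
      rw [← hf, ← hf, h2]
    apply Multiplicative.toAdd.injective
    funext i
    have h4 := congrArg (fun v => b.repr v i) h3
    simp only [Module.Basis.repr_sum_self] at h4
    exact_mod_cast h4
  · intro a
    obtain ⟨k, hk⟩ := (hb (D.vec a)).1 ⟨a, rfl⟩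
    refine ⟨Multiplicative.ofAdd k, ?_⟩
    apply D.vec_inj
    change D.vec (f k) = D.vec a
    rw [hf, hk]

theorem posG_cast {a b : ℕ} (h : a = b) : Nonempty (ZM a ≃* ZM b) := by
  subst h
  exact ⟨MulEquiv.refl _⟩

end posG

section posG2

variable {m : Fin 2 → ℕ} (P : ∀ i, Piece (m i)) (d : Fin 2 → ℕ)
  (D : ∀ i, PerPair (P i).Grp (P i).Cusp (m i))

theorem posG_glue (hj : ∀ i, (D i).j = (P i).incl)
    (ψ : (P 0).TCusp (d 0) ≃* (P 1).TCusp (d 1)) (i : Fin 2) (x : (P 0).Cusp × ZM (d 0)) :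
    tgluing P d ψ i ((P 0).posG_cusp (d 0) x) =
      (P i).posG_grp (d i) (pglue D d (show (P 0).Cusp × ZM (d 0) ≃* (P 1).Cusp × ZM (d 1) from ψ)
        i x) := by
  match i with
  | 0 =>
    change ((P 0).incl x.1, x.2) = ((D 0).j x.1, x.2)
    rw [hj]
  | 1 =>
    change ((P 1).incl (ψ x).1, (ψ x).2) = ((D 1).j (ψ x).1, (ψ x).2)
    rw [hj]

/-- The amalgams are isomorphic. -/
noncomputable def posGEquiv (hj : ∀ i, (D i).j = (P i).incl)
    (ψ : (P 0).TCusp (d 0) ≃* (P 1).TCusp (d 1)) :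
    PushoutI (pglue D d (show (P 0).Cusp × ZM (d 0) ≃* (P 1).Cusp × ZM (d 1) from ψ)) ≃*
      TAmalgam P d ψ :=
  pushEquiv (φ := pglue D d (show (P 0).Cusp × ZM (d 0) ≃* (P 1).Cusp × ZM (d 1) from ψ))
    (φ' := tgluing P d ψ) (fun i => (P i).posG_grp (d i)) ((P 0).posG_cusp (d 0))
    (fun i x => posG_glue P d D hj ψ i x)

theorem posG_exists : ∃ D : ∀ i, PerPair (P i).Grp (P i).Cusp (m i),
    (∀ i, (D i).j = (P i).incl) ∧ ∀ i g, (D i).vec g = (P i).tvec g := by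
  choose D h1 h2 using fun i => (P i).perPair
  exact ⟨D, h1, h2⟩

end posG2

theorem tamalgam_criterion {m : Fin 2 → ℕ} (P : ∀ i, Piece (m i)) (d : Fin 2 → ℕ)
    (ψ ψ' : (P 0).TCusp (d 0) ≃* (P 1).TCusp (d 1)) (h : FiberEquiv ψ ψ') :
    QuasiIsom (TAmalgam P d ψ) (TAmalgam P d ψ') := by
  obtain ⟨D, hj, hv⟩ := posG_exists P
  obtain ⟨A₀, A₁, Ψ, Ψ', hA₀, hA₁, hΨ, hΨ', hrel⟩ := h
  refine quasiIsom_congr (posGEquiv P d D hj ψ) (posGEquiv P d D hj ψ') ?_
  have e1 : ∀ h : (P 0).Cusp × ZM (d 0), Ψ ((D 0).wv (d 0) h) = (D 1).wv (d 1) (ψ h) := fun h =>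
    (P 1).posG_unique (d 1) (D 1) (hv 1) (ψ h) _
      (hΨ h _ ((P 0).posG_isVec (d 0) (D 0) (hv 0) h))
  have e2 : ∀ h : (P 0).Cusp × ZM (d 0), Ψ' ((D 0).wv (d 0) h) = (D 1).wv (d 1) (ψ' h) := fun h =>
    (P 1).posG_unique (d 1) (D 1) (hv 1) (ψ' h) _
      (hΨ' h _ ((P 0).posG_isVec (d 0) (D 0) (hv 0) h))
  refine criterion D d _ _ A₀ A₁ Ψ' hA₀ hA₁ e2 ?_
  intro h
  have h3 := hrel ((D 0).wv (d 0) h)
  rw [e1 h] at h3
  exact h3

theorem tamalgam_complementary {m : Fin 2 → ℕ} (P : ∀ i, Piece (m i)) (d : Fin 2 → ℕ)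
    (hd0 : m 1 = d 0) (hd1 : m 0 = d 1) (ψ ψ' : (P 0).TCusp (d 0) ≃* (P 1).TCusp (d 1))
    (ht : Transverse ψ) (ht' : Transverse ψ') :
    QuasiIsom (TAmalgam P d ψ) (TAmalgam P d ψ') := by
  obtain ⟨D, hj, hv⟩ := posG_exists P
  refine quasiIsom_congr (posGEquiv P d D hj ψ) (posGEquiv P d D hj ψ') ?_
  exact complementary D d hd0 hd1 _ _ (fun h h1 h2 => ht h h1 h2) (fun h h1 h2 => ht' h h1 h2)

/-- Transverse gluings exist in the complementary case: `(v, s) ↦ (s, v)` in lattice coordinates. -/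
theorem exists_transverse {m : Fin 2 → ℕ} (P : ∀ i, Piece (m i)) (d : Fin 2 → ℕ)
    (hd0 : m 1 = d 0) (hd1 : m 0 = d 1) :
    ∃ ψ : (P 0).TCusp (d 0) ≃* (P 1).TCusp (d 1), Transverse ψ := by
  obtain ⟨D, hj, hv⟩ := posG_exists P
  obtain ⟨f0⟩ := (D 0).posG_lat
  obtain ⟨f1⟩ := (D 1).posG_lat
  obtain ⟨c0⟩ := posG_cast hd0
  obtain ⟨c1⟩ := posG_cast hd1
  let g0 : (P 0).Cusp ≃* ZM (d 1) := f0.symm.trans c1
  let g1 : ZM (d 0) ≃* (P 1).Cusp := c0.symm.trans f1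
  let ψ : (P 0).Cusp × ZM (d 0) ≃* (P 1).Cusp × ZM (d 1) :=
    (MulEquiv.prodComm).trans (MulEquiv.prodCongr g1 g0)
  refine ⟨(((P 0).posG_cusp (d 0)).symm.trans ψ).trans ((P 1).posG_cusp (d 1)), ?_⟩
  intro x hx hx'
  have h1 : x.1 = 1 := hx
  have h2 : g1 x.2 = 1 := hx'
  have h3 : x.2 = 1 := by
    apply g1.injective
    rw [h2, map_one]
  exact Prod.ext h1 h3

end QIG
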